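import Pool.Agent.Lib.MP_136c99_an.Space

set_option autoImplicit false

/-!
Averaging operators over finite grids, and the transport estimate.
-/

namespace Pool.Agent.Lib.MP_136c99_an

open Finset

/-- Grid step of a coordinate. -/
noncomputable def hh (i : Idx) : ℝ := (1 / 64 : ℝ) ^ i.1 / 16

/-- Number of grid points of a coordinate. -/
def mm (i : Idx) : ℕ := 2 * 8 ^ i.1

lemma hh_pos (i : Idx) : 0 < hh i := by unfold hh; positivity
lemma mm_pos (i : Idx) : 0 < mm i := by unfold mm; positivity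

lemma mm_mul_hh (i : Idx) : (mm i : ℝ) * hh i = wd i := by
  unfold mm hh wd
  push_cast
  rw [pow_succ, div_pow, div_pow, one_pow]
  have : (64 : ℝ) ^ i.1 = 8 ^ i.1 * 8 ^ i.1 := by rw [← mul_pow]; norm_num
  rw [this]
  field_simp
  norm_num

instance : Infinite Idx := inferInstance

/-- An enumeration of the coordinates. -/
noncomputable def enum : ℕ ≃ Idx :=
  (Classical.choice (nonempty_denumerable Idx)).eqv.symm

section ops
variable {E : Type*} [NormedAddCommGroup E] [NormedSpace ℝ E]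

/-- Average over the grid of coordinate `i`. -/
noncomputable def A (i : Idx) : ((Idx → ℝ) → E) →ₗ[ℝ] ((Idx → ℝ) → E) where
  toFun F x := (mm i : ℝ)⁻¹ • ∑ t ∈ range (mm i), F (Function.update x i (t * hh i))
  map_add' F F' := by
    funext x
    simp [sum_add_distrib, smul_add]
  map_smul' c F := by
    funext x
    simp only [Pi.smul_apply, RingHom.id_apply, ← smul_sum]
    rw [smul_comm]

lemma A_apply (i : Idx) (F : (Idx → ℝ) → E) (x : Idx → ℝ) :
    A i F x = (mm i : ℝ)⁻¹ • ∑ t ∈ range (mm i), F (Function.update x i (t * hh i)) := rfl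

lemma A_of_const (i : Idx) {F : (Idx → ℝ) → E} {x : Idx → ℝ} {c : E}
    (h : ∀ t : ℕ, F (Function.update x i (t * hh i)) = c) : A i F x = c := by
  rw [A_apply, sum_congr rfl fun t _ => h t, sum_const, card_range, ← Nat.cast_smul_eq_nsmul ℝ,
    smul_smul, inv_mul_cancel₀ (by exact_mod_cast (mm_pos i).ne'), one_smul]

lemma A_idem (i : Idx) (F : (Idx → ℝ) → E) : A i (A i F) = A i F := by
  funext x
  apply A_of_const
  intro t
  rw [A_apply, A_apply]
  simp only [Function.update_idem]

lemma A_comm {i j : Idx} (hij : i ≠ j) (F : (Idx → ℝ) → E) : A i (A j F) = A j (A i F) := by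
  funext x
  rw [A_apply, A_apply]
  simp only [A_apply, ← smul_sum]
  rw [smul_comm, sum_comm]
  congr 2
  refine sum_congr rfl fun t _ => sum_congr rfl fun s _ => ?_
  rw [Function.update_comm hij]

/-- Average over the grids of the first `n` coordinates. -/
noncomputable def EE : ℕ → (((Idx → ℝ) → E) →ₗ[ℝ] ((Idx → ℝ) → E))
  | 0 => LinearMap.id
  | n + 1 => (EE n).comp (A (enum n))

lemma EE_succ (n : ℕ) (F : (Idx → ℝ) → E) : EE (n + 1) F = EE n (A (enum n) F) := rfl

lemma EE_A (n l : ℕ) (hl : l < n) (F : (Idx → ℝ) → E) : EE n (A (enum l) F) = EE n F := by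
  induction n generalizing F with
  | zero => omega
  | succ n ih =>
    rw [EE_succ, EE_succ]
    rcases Nat.lt_succ_iff_lt_or_eq.mp hl with h | h
    · rw [A_comm (by
        intro h'
        exact absurd (enum.injective h') (by omega)), ih h]
    · subst h
      rw [A_idem]

/-- The reachable region. -/
def Grid : Set (Idx → ℝ) := {x | ∀ i, 0 ≤ x i ∧ x i ≤ wd i}

lemma zero_mem_Grid : (0 : Idx → ℝ) ∈ Grid := fun i => ⟨le_rfl, (wd_pos i).le⟩

lemma update_mem_Grid {x : Idx → ℝ} (hx : x ∈ Grid) (i : Idx) {c : ℝ} (h0 : 0 ≤ c)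
    (h1 : c ≤ wd i) : Function.update x i c ∈ Grid := by
  intro j
  rcases eq_or_ne j i with rfl | h
  · rw [Function.update_self]; exact ⟨h0, h1⟩
  · rw [Function.update_of_ne h]; exact hx j

lemma grid_le {i : Idx} {t : ℕ} (ht : t < mm i) : (t : ℝ) * hh i ≤ wd i := by
  rw [← mm_mul_hh]
  have := hh_pos i
  have : (t : ℝ) ≤ mm i := by exact_mod_cast ht.le
  gcongr

lemma A_bound {i : Idx} {F : (Idx → ℝ) → E} {C : ℝ} (h : ∀ x ∈ Grid, ‖F x‖ ≤ C) :
    ∀ x ∈ Grid, ‖A i F x‖ ≤ C := by
  intro x hx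
  have hm : (0 : ℝ) < mm i := by exact_mod_cast mm_pos i
  rw [A_apply, norm_smul, norm_inv, Real.norm_of_nonneg hm.le]
  rw [inv_mul_le_iff₀ hm]
  refine (norm_sum_le _ _).trans ?_
  calc ∑ t ∈ range (mm i), ‖F (Function.update x i (t * hh i))‖
      ≤ ∑ _t ∈ range (mm i), C := by
        refine sum_le_sum fun t ht => h _ (update_mem_Grid hx i ?_ (grid_le (mem_range.mp ht)))
        have := hh_pos i
        positivity
    _ = mm i * C := by rw [sum_const, card_range, nsmul_eq_mul]

lemma EE_bound (n : ℕ) {F : (Idx → ℝ) → E} {C : ℝ} (h : ∀ x ∈ Grid, ‖F x‖ ≤ C) :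
    ∀ x ∈ Grid, ‖EE n F x‖ ≤ C := by
  induction n generalizing F with
  | zero => exact h
  | succ n ih => rw [EE_succ]; exact ih (A_bound h)

lemma EE_const (n : ℕ) (c : E) (x : Idx → ℝ) : EE n (fun _ => c) x = c := by
  induction n with
  | zero => rfl
  | succ n ih =>
    rw [EE_succ]
    have : A (enum n) (fun _ => c) = fun _ => c := by
      funext y
      exact A_of_const _ (fun _ => rfl)
    rw [this, ih]

lemma map_EE (φ : E →L[ℝ] ℝ) (n : ℕ) (F : (Idx → ℝ) → E) (x : Idx → ℝ) :
    φ (EE n F x) = EE n (fun y => φ (F y)) x := by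
  induction n generalizing F with
  | zero => rfl
  | succ n ih =>
    rw [EE_succ, EE_succ, ih]
    have : (fun y => φ (A (enum n) F y)) = A (enum n) (fun y => φ (F y)) := by
      funext y
      rw [A_apply, A_apply, map_smul, map_sum]
    rw [this]

end ops

/-- One dimensional telescoping. -/
lemma telescope (Ψ : ℤ → ℝ) (m : ℕ) (r : ℤ) {c0 c1 Ω : ℝ}
    (h1 : ∀ t : ℤ, |t| ≤ |r| → |Ψ (m + t) - c1| ≤ Ω)
    (h0 : ∀ t : ℤ, |t| ≤ |r| → |Ψ t - c0| ≤ Ω) :
    |∑ t ∈ range m, (Ψ (t + r) - Ψ t) - r * (c1 - c0)| ≤ |(r : ℝ)| * (2 * Ω) := by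
  have hstep : ∀ r : ℤ, ∑ t ∈ range m, Ψ (t + (r + 1)) - ∑ t ∈ range m, Ψ (t + r)
      = Ψ (m + r) - Ψ r := by
    intro r
    rw [← sum_sub_distrib]
    have := Finset.sum_range_sub (fun t : ℕ => Ψ (t + r)) m
    simp only [Nat.cast_zero, zero_add] at this
    rw [← this]
    refine sum_congr rfl fun t _ => ?_
    congr 2
    push_cast
    ring
  rw [sum_sub_distrib]
  let S : ℤ → ℝ := fun r =>
    ∑ t ∈ range m, Ψ (t + r) - ∑ t ∈ range m, Ψ t - r * (c1 - c0)
  have hS : ∀ r : ℤ, S (r + 1) - S r = (Ψ (m + r) - c1) - (Ψ r - c0) := by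
    intro r
    have := hstep r
    simp only [S]
    push_cast
    linear_combination this
  have hS0 : S 0 = 0 := by simp [S]
  have main : ∀ n : ℕ, (n : ℤ) ≤ |r| → |S n| ≤ n * (2 * Ω) ∧ |S (-(n : ℤ))| ≤ n * (2 * Ω) := by
    intro n
    induction n with
    | zero => intro _; simp [hS0]
    | succ n ih =>
      intro hn
      obtain ⟨i1, i2⟩ := ih (by push_cast at hn; omega)
      constructor
      · have e1 := hS n
        have b1 := h1 n (by rw [abs_of_nonneg (by positivity)]; push_cast at hn; omega)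
        have b0 := h0 n (by rw [abs_of_nonneg (by positivity)]; push_cast at hn; omega)
        push_cast
        have : S ((n : ℤ) + 1) = S n + ((Ψ (m + n) - c1) - (Ψ n - c0)) := by
          linear_combination e1
        rw [this]
        refine (abs_add_le _ _).trans ?_
        have := (abs_sub (Ψ (m + n) - c1) (Ψ n - c0))
        linarith
      · have e1 := hS (-((n : ℤ) + 1))
        have b1 := h1 (-((n : ℤ) + 1)) (by
          rw [abs_neg, abs_of_nonneg (by positivity)]; push_cast at hn; omega)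
        have b0 := h0 (-((n : ℤ) + 1)) (by
          rw [abs_neg, abs_of_nonneg (by positivity)]; push_cast at hn; omega)
        have hz : (-((n : ℤ) + 1) + 1) = -(n : ℤ) := by ring
        rw [hz] at e1
        have hz3 : (-((n + 1 : ℕ) : ℤ)) = -((n : ℤ) + 1) := by push_cast; ring
        rw [hz3]
        have : S (-((n : ℤ) + 1)) = S (-(n : ℤ))
            - ((Ψ (m + (-((n : ℤ) + 1))) - c1) - (Ψ (-((n : ℤ) + 1)) - c0)) := by
          linear_combination -e1
        rw [this]
        refine (abs_sub _ _).trans ?_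
        have := (abs_sub (Ψ (m + (-((n : ℤ) + 1))) - c1) (Ψ (-((n : ℤ) + 1)) - c0))
        push_cast
        linarith
  rcases le_total 0 r with hr | hr
  · obtain ⟨n, rfl⟩ := Int.eq_ofNat_of_zero_le hr
    have := (main n (le_abs_self _)).1
    simpa [S] using this
  · obtain ⟨n, hn⟩ := Int.eq_ofNat_of_zero_le (neg_nonneg.mpr hr)
    have hr' : r = -(n : ℤ) := by omega
    subst hr'
    have := (main n (by rw [abs_neg, Nat.abs_cast])).2
    simpa [S] using this

end Pool.Agent.Lib.MP_136c99_an
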