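import Pool.Agent.Lib.MP_136c99_an.Vectors

set_option autoImplicit false

/-!
The free space over the box fails the approximation property.
-/

namespace Pool.Agent.Lib.MP_136c99_an

open Finset Filter Topology

/-- The defining properties of the Lipschitz-free space. -/
structure FreeData {E : Type*} [NormedAddCommGroup E] [NormedSpace ℝ E] (δ : Pt → E) : Prop where
  zero : δ pt0 = 0
  iso : ∀ x y : Pt, ‖δ x - δ y‖ = dist x y
  dense : Dense ((Submodule.span ℝ (Set.range δ) : Submodule ℝ E) : Set E)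
  ext : ∀ f : Pt → ℝ, f pt0 = 0 → (∀ a b : Pt, |f a - f b| ≤ dist a b) →
        ∃ φ : E →L[ℝ] ℝ, ‖φ‖ ≤ 1 ∧ ∀ x : Pt, φ (δ x) = f x

section
variable {E : Type*} [NormedAddCommGroup E] [NormedSpace ℝ E] {δ : Pt → E}

/-- Lipschitz constant of a coordinate. -/
noncomputable def CC (i : Idx) : ℝ := (4 * wd i) ^ (1 - al)

lemma CC_pos (i : Idx) : 0 < CC i := by
  have := wd_pos i
  unfold CC
  positivity

lemma CC_le_one (i : Idx) : CC i ≤ 1 := by
  have h := wd_pos i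
  have h2 : wd i ≤ 1 / 8 := by
    unfold wd
    calc (1 / 8 : ℝ) ^ (i.1 + 1) ≤ (1 / 8 : ℝ) ^ 1 :=
          pow_le_pow_of_le_one (by norm_num) (by norm_num) (by omega)
      _ = 1 / 8 := by norm_num
  unfold CC
  apply Real.rpow_le_one (by positivity) (by linarith)
  have := al_le_one
  linarith

lemma pt0_x : pt0.x = 0 := rfl

lemma exists_gam (h : FreeData δ) (i : Idx) : ∃ φ : E →L[ℝ] ℝ, ‖φ‖ ≤ 1 ∧
    ∀ p, φ (δ p) = (CC i)⁻¹ * p.x i := by
  refine h.ext (fun p => (CC i)⁻¹ * p.x i) ?_ ?_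
  · rw [pt0_x]; simp
  · intro a b
    have hC := CC_pos i
    rw [← mul_sub, abs_mul, abs_of_pos (inv_pos.mpr hC), inv_mul_le_iff₀ hC]
    exact coord_le_dist a b i

/-- Normalized coordinate functionals. -/
noncomputable def gam (h : FreeData δ) (i : Idx) : E →L[ℝ] ℝ := (exists_gam h i).choose

lemma norm_gam (h : FreeData δ) (i : Idx) : ‖gam h i‖ ≤ 1 := (exists_gam h i).choose_spec.1

lemma gam_delta (h : FreeData δ) (i : Idx) (p : Pt) : gam h i (δ p) = (CC i)⁻¹ * p.x i :=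
  (exists_gam h i).choose_spec.2 p

/-- Coordinate functionals. -/
noncomputable def alpha (h : FreeData δ) (i : Idx) : E →L[ℝ] ℝ := CC i • gam h i

lemma alpha_apply (h : FreeData δ) (i : Idx) (z : E) : alpha h i z = CC i * gam h i z := rfl

lemma alpha_delta (h : FreeData δ) (i : Idx) (p : Pt) : alpha h i (δ p) = p.x i := by
  rw [alpha_apply, gam_delta, mul_inv_cancel_left₀ (CC_pos i).ne']

lemma exists_evf (h : FreeData δ) (e : Evs) : ∃ φ : E →L[ℝ] ℝ, ‖φ‖ ≤ 1 ∧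
    ∀ p, φ (δ p) = ev e p.x := by
  refine h.ext (fun p => ev e p.x) ?_ ?_
  · rw [pt0_x, map_zero]
  · intro a b
    exact ev_le_dist a b e

/-- Evaluation functionals. -/
noncomputable def evf (h : FreeData δ) (e : Evs) : E →L[ℝ] ℝ := (exists_evf h e).choose

lemma norm_evf (h : FreeData δ) (e : Evs) : ‖evf h e‖ ≤ 1 := (exists_evf h e).choose_spec.1

lemma evf_delta (h : FreeData δ) (e : Evs) (p : Pt) : evf h e (δ p) = ev e p.x :=
  (exists_evf h e).choose_spec.2 p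

lemma clm_ext (h : FreeData δ) {φ ψ : E →L[ℝ] ℝ} (hh : ∀ p, φ (δ p) = ψ (δ p)) : φ = ψ := by
  refine ContinuousLinearMap.ext_on h.dense ?_
  rintro _ ⟨p, rfl⟩
  exact hh p

lemma alpha_sg (h : FreeData δ) (k : ℕ) (j : J k) (z : E) :
    (8 * 4 ^ k : ℝ) * alpha h ⟨k, j⟩ z = ∑ g : G k, (sg k j g : ℝ) * evf h ⟨k, g⟩ z := by
  have : (8 * 4 ^ k : ℝ) • alpha h ⟨k, j⟩ = ∑ g : G k, (sg k j g : ℝ) • evf h ⟨k, g⟩ := by
    apply clm_ext h
    intro p
    simp only [_root_.smul_apply, _root_.sum_apply, smul_eq_mul,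
      alpha_delta, evf_delta]
    exact coord_sg p.x k j
  have h2 := congrArg (fun φ : E →L[ℝ] ℝ => φ z) this
  simpa only [_root_.smul_apply, _root_.sum_apply, smul_eq_mul]
    using h2

lemma alpha_tg (h : FreeData δ) (k : ℕ) (j : J (k + 1)) (z : E) :
    (8 * 4 ^ k : ℝ) * alpha h ⟨k + 1, j⟩ z = ∑ g : G k, (tg k j g : ℝ) * evf h ⟨k, g⟩ z := by
  have : (8 * 4 ^ k : ℝ) • alpha h ⟨k + 1, j⟩ = ∑ g : G k, (tg k j g : ℝ) • evf h ⟨k, g⟩ := by
    apply clm_ext h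
    intro p
    simp only [_root_.smul_apply, _root_.sum_apply, smul_eq_mul,
      alpha_delta, evf_delta]
    exact coord_tg p.x k j
  have h2 := congrArg (fun φ : E →L[ℝ] ℝ => φ z) this
  simpa only [_root_.smul_apply, _root_.sum_apply, smul_eq_mul]
    using h2

/-- The averaged traces. -/
noncomputable def bet (h : FreeData δ) (k : ℕ) (S : E →L[ℝ] E) : ℝ :=
  ((4 : ℝ) ^ k)⁻¹ * ∑ j : J k, alpha h ⟨k, j⟩ (S (LL δ ⟨k, j⟩))

lemma bet_succ (h : FreeData δ) (k : ℕ) (S : E →L[ℝ] E) :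
    bet h (k + 1) S - bet h k S
      = (8 * 4 ^ k : ℝ)⁻¹ * ∑ g : G k, evf h ⟨k, g⟩ (S (Lphi δ ⟨k, g⟩)) := by
  have hpos : (8 * 4 ^ k : ℝ) ≠ 0 := by positivity
  have e1 : ∑ g : G k, evf h ⟨k, g⟩ (S (Lphi δ ⟨k, g⟩))
      = ((4 : ℝ) ^ (k + 1))⁻¹ * ∑ j : J (k + 1), ∑ g : G k,
          (tg k j g : ℝ) * evf h ⟨k, g⟩ (S (LL δ ⟨k + 1, j⟩))
        - ((4 : ℝ) ^ k)⁻¹ * ∑ j : J k, ∑ g : G k,
          (sg k j g : ℝ) * evf h ⟨k, g⟩ (S (LL δ ⟨k, j⟩)) := by
    unfold Lphi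
    simp only [map_sub, map_smul, map_sum, smul_eq_mul]
    rw [sum_sub_distrib, ← mul_sum, ← mul_sum]
    rw [Finset.sum_comm (s := (univ : Finset (G k))) (t := (univ : Finset (J (k + 1)))),
      Finset.sum_comm (s := (univ : Finset (G k))) (t := (univ : Finset (J k)))]
  rw [e1]
  have e2 : ∀ j : J (k + 1), ∑ g : G k,
      (tg k j g : ℝ) * evf h ⟨k, g⟩ (S (LL δ ⟨k + 1, j⟩))
      = (8 * 4 ^ k : ℝ) * alpha h ⟨k + 1, j⟩ (S (LL δ ⟨k + 1, j⟩)) :=
    fun j => (alpha_tg h k j _).symm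
  have e3 : ∀ j : J k, ∑ g : G k,
      (sg k j g : ℝ) * evf h ⟨k, g⟩ (S (LL δ ⟨k, j⟩))
      = (8 * 4 ^ k : ℝ) * alpha h ⟨k, j⟩ (S (LL δ ⟨k, j⟩)) :=
    fun j => (alpha_sg h k j _).symm
  rw [sum_congr rfl fun j _ => e2 j, sum_congr rfl fun j _ => e3 j, ← mul_sum, ← mul_sum]
  unfold bet
  field_simp

lemma gam_small_delta (h : FreeData δ) (p : Pt) {ε : ℝ} (hε : 0 < ε) :
    ∃ N, ∀ i : Idx, N ≤ i.1 → |gam h i (δ p)| ≤ ε := by
  have hlim : Tendsto (fun n : ℕ => 2 * qq ^ n) atTop (𝓝 (2 * 0)) :=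
    (tendsto_pow_atTop_nhds_zero_of_lt_one qq_pos.le qq_lt_one).const_mul 2
  rw [mul_zero] at hlim
  obtain ⟨N, hN⟩ := (hlim.eventually (gt_mem_nhds hε)).exists_forall_of_atTop
  refine ⟨N, fun i hi => ?_⟩
  have hC := CC_pos i
  rw [gam_delta, abs_mul, abs_of_pos (inv_pos.mpr hC), inv_mul_le_iff₀ hC]
  have hw := wd_pos i
  have h1 : CC i * (wd i ^ al) ≥ wd i := by
    unfold CC
    have e : wd i ^ (1 - al) * wd i ^ al = wd i := by
      rw [← Real.rpow_add hw, sub_add_cancel, Real.rpow_one]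
    have e2 : wd i ^ (1 - al) ≤ (4 * wd i) ^ (1 - al) := by
      apply Real.rpow_le_rpow hw.le (by linarith)
      have := al_le_one
      linarith
    calc wd i = wd i ^ (1 - al) * wd i ^ al := e.symm
      _ ≤ (4 * wd i) ^ (1 - al) * wd i ^ al := by gcongr
  have h2 : 2 * wd i ^ al ≤ ε := by
    refine le_trans ?_ (hN i.1 hi).le
    rw [wd_al]
    have := pow_le_pow_of_le_one qq_pos.le qq_lt_one.le (show i.1 ≤ 21 * (i.1 + 1) by omega)
    linarith
  calc |p.x i| ≤ 2 * wd i := p.bd i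
    _ ≤ 2 * (CC i * wd i ^ al) := by linarith
    _ = CC i * (2 * wd i ^ al) := by ring
    _ ≤ CC i * ε := by gcongr

lemma gam_small (h : FreeData δ) (z : E) {ε : ℝ} (hε : 0 < ε) :
    ∃ N, ∀ i : Idx, N ≤ i.1 → |gam h i z| ≤ ε := by
  have hspan : ∀ y ∈ Submodule.span ℝ (Set.range δ), ∀ ε : ℝ, 0 < ε →
      ∃ N, ∀ i : Idx, N ≤ i.1 → |gam h i y| ≤ ε := by
    intro y hy
    induction hy using Submodule.span_induction with
    | mem x hx =>
      obtain ⟨p, rfl⟩ := hx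
      intro ε hε
      exact gam_small_delta h p hε
    | zero =>
      intro ε hε
      refine ⟨0, fun i _ => ?_⟩
      rw [map_zero, abs_zero]
      exact hε.le
    | add x y _ _ ihx ihy =>
      intro ε hε
      obtain ⟨N1, h1⟩ := ihx (ε / 2) (by positivity)
      obtain ⟨N2, h2⟩ := ihy (ε / 2) (by positivity)
      refine ⟨max N1 N2, fun i hi => ?_⟩
      rw [map_add]
      refine (abs_add_le _ _).trans ?_
      have := h1 i ((le_max_left _ _).trans hi)
      have := h2 i ((le_max_right _ _).trans hi)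
      linarith
    | smul a x _ ih =>
      intro ε hε
      have ha : 0 < |a| + 1 := by positivity
      obtain ⟨N, hN⟩ := ih (ε / (|a| + 1)) (by positivity)
      refine ⟨N, fun i hi => ?_⟩
      rw [map_smul, smul_eq_mul, abs_mul]
      have h1 := hN i hi
      calc |a| * |gam h i x| ≤ (|a| + 1) * (ε / (|a| + 1)) := by
            gcongr
            linarith
        _ = ε := by field_simp
  have hclo : z ∈ closure ((Submodule.span ℝ (Set.range δ) : Submodule ℝ E) : Set E) :=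
    h.dense z
  obtain ⟨y, hy, hyz⟩ := Metric.mem_closure_iff.mp hclo (ε / 2) (by positivity)
  obtain ⟨N, hN⟩ := hspan y hy (ε / 2) (by positivity)
  refine ⟨N, fun i hi => ?_⟩
  have e : z = y + (z - y) := by abel
  rw [e, map_add]
  refine (abs_add_le _ _).trans ?_
  have h1 := hN i hi
  have h2 : |gam h i (z - y)| ≤ ‖z - y‖ := by
    rw [← Real.norm_eq_abs]
    refine ((gam h i).le_opNorm _).trans ?_
    have := norm_gam h i
    have := norm_nonneg (z - y)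
    nlinarith
  rw [dist_eq_norm] at hyz
  linarith

lemma gam_finrank (h : FreeData δ) (T : E →L[ℝ] E)
    (hT : FiniteDimensional ℝ (LinearMap.range (T : E →ₗ[ℝ] E))) {ε : ℝ} (hε : 0 < ε) :
    ∃ N, ∀ i : Idx, N ≤ i.1 → ∀ z, |gam h i (T z)| ≤ ε * ‖z‖ := by
  classical
  let R := LinearMap.range (T : E →ₗ[ℝ] E)
  let T' : E →L[ℝ] R := T.codRestrict R (fun z => LinearMap.mem_range_self _ z)
  let b := Module.finBasis ℝ R
  let φ : Fin (Module.finrank ℝ R) → (E →L[ℝ] ℝ) := fun m =>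
    (LinearMap.toContinuousLinearMap (b.coord m)).comp T'
  have hrep : ∀ z, T z = ∑ m, φ m z • (b m : E) := by
    intro z
    have h1 := b.sum_repr (T' z)
    have h2 := congrArg (fun w : R => (w : E)) h1
    simp only [Submodule.coe_sum, Submodule.coe_smul] at h2
    rw [show T z = ((T' z : R) : E) from rfl, ← h2]
    rfl
  set B : ℝ := ∑ m, ‖φ m‖ + 1 with hB
  have hBpos : 0 < B := by
    have : 0 ≤ ∑ m, ‖φ m‖ := sum_nonneg fun m _ => norm_nonneg _
    linarith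
  have hN : ∀ m, ∃ N, ∀ i : Idx, N ≤ i.1 → |gam h i (b m : E)| ≤ ε / B := fun m =>
    gam_small h _ (by positivity)
  choose N hN using hN
  refine ⟨univ.sup N, fun i hi z => ?_⟩
  rw [hrep z, map_sum]
  refine (abs_sum_le_sum_abs _ _).trans ?_
  calc ∑ m, |gam h i (φ m z • (b m : E))| ≤ ∑ m, (‖φ m‖ * ‖z‖) * (ε / B) := by
        refine sum_le_sum fun m _ => ?_
        rw [map_smul, smul_eq_mul, abs_mul]
        have h1 := hN m i ((Finset.le_sup (mem_univ m)).trans hi)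
        have h2 : |φ m z| ≤ ‖φ m‖ * ‖z‖ := by
          rw [← Real.norm_eq_abs]
          exact (φ m).le_opNorm z
        gcongr
    _ = (∑ m, ‖φ m‖) * (ε / B) * ‖z‖ := by rw [sum_mul, sum_mul]; exact sum_congr rfl fun m _ => by ring
    _ ≤ B * (ε / B) * ‖z‖ := by
        gcongr
        linarith
    _ = ε * ‖z‖ := by
        congr 1
        field_simp

variable [CompleteSpace E]

lemma CC_norm_LL (h : FreeData δ) (i : Idx) : CC i * ‖LL δ i‖ ≤ 4 := by
  have h1 := norm_LL_le h.iso i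
  have hw := wd_pos i
  have hC := CC_pos i
  have hal := al_le_one
  have hal0 := al_pos
  have e : wd i ^ (1 - al) * wd i ^ al = wd i := by
    rw [← Real.rpow_add hw, sub_add_cancel, Real.rpow_one]
  have e4 : (4 : ℝ) ^ (1 - al) ≤ 4 := by
    calc (4 : ℝ) ^ (1 - al) ≤ (4 : ℝ) ^ (1 : ℝ) :=
          Real.rpow_le_rpow_of_exponent_le (by norm_num) (by linarith)
      _ = 4 := Real.rpow_one _
  calc CC i * ‖LL δ i‖ ≤ CC i * ((wd i)⁻¹ * wd i ^ al) := by gcongr
    _ = (4 : ℝ) ^ (1 - al) * (wd i ^ (1 - al) * wd i ^ al) * (wd i)⁻¹ := by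
        unfold CC
        rw [Real.mul_rpow (by norm_num) hw.le]
        ring
    _ = (4 : ℝ) ^ (1 - al) := by rw [e, mul_assoc, mul_inv_cancel₀ hw.ne', mul_one]
    _ ≤ 4 := e4

lemma bet_id (h : FreeData δ) (k : ℕ) : bet h k (ContinuousLinearMap.id ℝ E) = 1 := by
  unfold bet
  have : ∀ j : J k, alpha h ⟨k, j⟩ ((ContinuousLinearMap.id ℝ E) (LL δ ⟨k, j⟩)) = 1 := fun j =>
    coord_LL h.iso _ _ (alpha_delta h _)
  simp only [this]
  rw [sum_const, card_univ, card_J, nsmul_eq_mul, mul_one]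
  push_cast
  rw [inv_mul_cancel₀]
  positivity

lemma bet_finrank (h : FreeData δ) (T : E →L[ℝ] E)
    (hT : FiniteDimensional ℝ (LinearMap.range (T : E →ₗ[ℝ] E))) {ε : ℝ} (hε : 0 < ε) :
    ∃ N, ∀ k, N ≤ k → |bet h k T| ≤ ε := by
  obtain ⟨N, hN⟩ := gam_finrank h T hT (ε := ε / 4) (by positivity)
  refine ⟨N, fun k hk => ?_⟩
  unfold bet
  have h4 : (0 : ℝ) < 4 ^ k := by positivity
  rw [abs_mul, abs_of_pos (inv_pos.mpr h4), inv_mul_le_iff₀ h4]
  refine (abs_sum_le_sum_abs _ _).trans ?_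
  calc ∑ j : J k, |alpha h ⟨k, j⟩ (T (LL δ ⟨k, j⟩))| ≤ ∑ _j : J k, ε := by
        refine sum_le_sum fun j _ => ?_
        rw [alpha_apply, abs_mul, abs_of_pos (CC_pos _)]
        have h1 := hN ⟨k, j⟩ hk (LL δ ⟨k, j⟩)
        have h2 := CC_norm_LL h ⟨k, j⟩
        have hC := CC_pos ⟨k, j⟩
        calc CC ⟨k, j⟩ * |gam h ⟨k, j⟩ (T (LL δ ⟨k, j⟩))|
            ≤ CC ⟨k, j⟩ * (ε / 4 * ‖LL δ ⟨k, j⟩‖) := by gcongr
          _ = ε / 4 * (CC ⟨k, j⟩ * ‖LL δ ⟨k, j⟩‖) := by ring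
          _ ≤ ε / 4 * 4 := by gcongr
          _ = ε := by ring
    _ = 4 ^ k * ε := by
        rw [sum_const, card_univ, card_J, nsmul_eq_mul]
        push_cast
        rfl

omit [CompleteSpace E] in
lemma bet_sub (h : FreeData δ) (k : ℕ) (S T : E →L[ℝ] E) :
    bet h k (S - T) = bet h k S - bet h k T := by
  unfold bet
  simp only [_root_.sub_apply, map_sub, sum_sub_distrib, mul_sub]

/-- The scaled trace vectors. -/
noncomputable def uu (δ : Pt → E) (e : Evs) : E := (qq⁻¹) ^ e.1 • Lphi δ e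

lemma norm_uu_le (h : FreeData δ) (e : Evs) :
    ‖uu δ e‖ ≤ 34 * (qq ^ 4)⁻¹ * qq ^ e.1 := by
  have hq := qq_pos
  have h1 := norm_Lphi_le h.iso e
  unfold uu
  rw [norm_smul, norm_pow, norm_inv, Real.norm_of_nonneg hq.le]
  calc qq⁻¹ ^ e.1 * ‖Lphi δ e‖ ≤ qq⁻¹ ^ e.1 * (34 * (qq ^ 4)⁻¹ * qq ^ (3 * e.1)) := by gcongr
    _ = 34 * (qq ^ 4)⁻¹ * (qq⁻¹ ^ e.1 * qq ^ (e.1 + 2 * e.1)) := by
        rw [show e.1 + 2 * e.1 = 3 * e.1 by ring]; ring
    _ = 34 * (qq ^ 4)⁻¹ * qq ^ (2 * e.1) := by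
        rw [pow_add, ← mul_assoc (qq⁻¹ ^ e.1), ← mul_pow, inv_mul_cancel₀ hq.ne', one_pow,
          one_mul]
    _ ≤ 34 * (qq ^ 4)⁻¹ * qq ^ e.1 := by
        have := pow_le_pow_of_le_one hq.le qq_lt_one.le (show e.1 ≤ 2 * e.1 by omega)
        gcongr

lemma tendsto_uu (h : FreeData δ) : Tendsto (uu δ) cofinite (𝓝 0) := by
  rw [Metric.tendsto_nhds]
  intro ε hε
  have hlim : Tendsto (fun n : ℕ => 34 * (qq ^ 4)⁻¹ * qq ^ n) atTop
      (𝓝 (34 * (qq ^ 4)⁻¹ * 0)) :=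
    (tendsto_pow_atTop_nhds_zero_of_lt_one qq_pos.le qq_lt_one).const_mul _
  rw [mul_zero] at hlim
  obtain ⟨N, hN⟩ := (hlim.eventually (gt_mem_nhds hε)).exists_forall_of_atTop
  rw [eventually_cofinite]
  have hfin : ((fun e : Evs => e.1) ⁻¹' (Set.Iio N)).Finite := by
    apply Set.Finite.preimage' (Set.finite_Iio N)
    intro b _
    have : ((fun e : Evs => e.1) ⁻¹' {b}) ⊆ Set.range (fun g : G b => (⟨b, g⟩ : Evs)) := by
      rintro ⟨k, g⟩ hk
      simp only [Set.mem_preimage, Set.mem_singleton_iff] at hk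
      subst hk
      exact ⟨g, rfl⟩
    exact (Set.finite_range _).subset this
  refine hfin.subset ?_
  intro e he
  simp only [Set.mem_ofPred_eq, not_lt, dist_zero_right] at he
  simp only [Set.mem_preimage, Set.mem_Iio]
  by_contra hcon
  push Not at hcon
  have h1 := hN e.1 hcon
  have h2 := norm_uu_le h e
  linarith

/-- The compact set. -/
def KK (δ : Pt → E) : Set E := Set.range (fun j : J 0 => LL δ ⟨0, j⟩) ∪ insert 0 (Set.range (uu δ))

lemma isCompact_KK (h : FreeData δ) : IsCompact (KK δ) := by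
  apply IsCompact.union
  · exact (Set.finite_range _).isCompact
  · exact (tendsto_uu h).isCompact_insert_range_of_cofinite

omit [CompleteSpace E] in
lemma bet_bound (h : FreeData δ) (S : E →L[ℝ] E) {ε : ℝ}
    (hS : ∀ z ∈ KK δ, ‖S z‖ ≤ ε) (k : ℕ) :
    |bet h k S| ≤ ε * (1 + ∑ l ∈ range k, qq ^ l) := by
  induction k with
  | zero =>
    simp only [range_zero, sum_empty, add_zero, mul_one]
    unfold bet
    simp only [pow_zero, inv_one, one_mul]
    refine (abs_sum_le_sum_abs _ _).trans ?_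
    calc ∑ j : J 0, |alpha h ⟨0, j⟩ (S (LL δ ⟨0, j⟩))| ≤ ∑ _j : J 0, ε := by
          refine sum_le_sum fun j _ => ?_
          have h1 : ‖S (LL δ ⟨0, j⟩)‖ ≤ ε := hS _ (Or.inl ⟨j, rfl⟩)
          rw [alpha_apply, abs_mul, abs_of_pos (CC_pos _), ← Real.norm_eq_abs]
          have h2 := (gam h ⟨0, j⟩).le_opNorm (S (LL δ ⟨0, j⟩))
          have h3 := norm_gam h ⟨0, j⟩
          have h4 := CC_le_one ⟨0, j⟩
          have h5 := CC_pos ⟨0, j⟩
          calc CC ⟨0, j⟩ * ‖gam h ⟨0, j⟩ (S (LL δ ⟨0, j⟩))‖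
              ≤ 1 * (1 * ε) := by
                gcongr
                exact h2.trans (by gcongr)
            _ = ε := by ring
      _ = ε := by
          rw [sum_const, card_univ, card_J]
          simp
  | succ k ih =>
    have e : bet h (k + 1) S = bet h k S + (bet h (k + 1) S - bet h k S) := by ring
    rw [e, bet_succ]
    refine (abs_add_le _ _).trans ?_
    have h84 : (0 : ℝ) < 8 * 4 ^ k := by positivity
    have hstep : |(8 * 4 ^ k : ℝ)⁻¹ * ∑ g : G k, evf h ⟨k, g⟩ (S (Lphi δ ⟨k, g⟩))|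
        ≤ ε * qq ^ k := by
      rw [abs_mul, abs_of_pos (inv_pos.mpr h84), inv_mul_le_iff₀ h84]
      refine (abs_sum_le_sum_abs _ _).trans ?_
      calc ∑ g : G k, |evf h ⟨k, g⟩ (S (Lphi δ ⟨k, g⟩))| ≤ ∑ _g : G k, ε * qq ^ k := by
            refine sum_le_sum fun g _ => ?_
            have hq := qq_pos
            have h1 : ‖S (uu δ ⟨k, g⟩)‖ ≤ ε := hS _ (Or.inr (Or.inr ⟨_, rfl⟩))
            have h2 : Lphi δ ⟨k, g⟩ = qq ^ k • uu δ ⟨k, g⟩ := by
              unfold uu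
              rw [smul_smul, ← mul_pow, mul_inv_cancel₀ hq.ne', one_pow, one_smul]
            rw [h2, map_smul, map_smul, smul_eq_mul, abs_mul, abs_of_pos (by positivity),
              mul_comm, ← Real.norm_eq_abs]
            have h3 := (evf h ⟨k, g⟩).le_opNorm (S (uu δ ⟨k, g⟩))
            have h4 := norm_evf h ⟨k, g⟩
            gcongr
            calc _ ≤ ‖evf h ⟨k, g⟩‖ * ‖S (uu δ ⟨k, g⟩)‖ := h3
              _ ≤ 1 * ε := by gcongr
              _ = ε := one_mul _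
        _ = 8 * 4 ^ k * (ε * qq ^ k) := by
            rw [sum_const, card_univ, card_G, nsmul_eq_mul]
            push_cast
            ring
    rw [sum_range_succ]
    linarith

theorem no_approx (h : FreeData δ) : ∃ ε : ℝ, 0 < ε ∧ ∀ T : E →L[ℝ] E,
    FiniteDimensional ℝ (LinearMap.range (T : E →ₗ[ℝ] E)) →
    ¬ ∀ z ∈ KK δ, ‖T z - z‖ ≤ ε := by
  have hq := qq_pos
  have hq1 := qq_lt_one
  set B : ℝ := 1 + (1 - qq)⁻¹ with hB
  have hq2 : 0 < (1 - qq)⁻¹ := inv_pos.mpr (by linarith)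
  have hBpos : 0 < B := by linarith
  refine ⟨1 / (4 * B), by positivity, fun T hT hcon => ?_⟩
  obtain ⟨N, hN⟩ := bet_finrank h T hT (ε := 1 / 4) (by norm_num)
  have h1 := hN N le_rfl
  have h2 := bet_bound h (T - ContinuousLinearMap.id ℝ E) (ε := 1 / (4 * B))
    (fun z hz => by simpa using hcon z hz) N
  rw [bet_sub, bet_id] at h2
  have h3 : ∑ l ∈ range N, qq ^ l ≤ (1 - qq)⁻¹ := by
    have := (summable_geometric_of_lt_one hq.le hq1).sum_le_tsum (range N)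
      (fun i _ => by positivity)
    rwa [tsum_geometric_of_lt_one hq.le hq1] at this
  have h4 : 1 / (4 * B) * (1 + ∑ l ∈ range N, qq ^ l) ≤ 1 / (4 * B) * B := by
    gcongr
    linarith
  have h5 : 1 / (4 * B) * B = 1 / 4 := by field_simp
  rw [h5] at h4
  have h6 := h2.trans h4
  rw [abs_le] at h1 h6
  linarith [h1.1, h1.2, h6.1, h6.2]

end

end Pool.Agent.Lib.MP_136c99_an
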