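import Pool.Agent.Lib.MP_136c99_an.Free
import Pool.Agent.Lib.MP_136c99_an.Main

set_option autoImplicit false

/-!
The compact box with the unsnowflaked metric.
-/

open Filter Topology

namespace Pool.Agent.Lib.MP_136c99_an

/-- The compact box with the sup metric of all evaluations (before snowflaking). -/
def Base : Type := Pt

noncomputable instance : MetricSpace Base where
  dist p q := rho (p : Pt) (q : Pt)
  dist_self p := by
    apply le_antisymm _ (rho_nonneg _ _)
    refine rho_le fun e => ?_
    rw [sub_self, map_zero, abs_zero]
  dist_comm p q := rho_comm _ _
  dist_triangle p q r := rho_triangle _ _ _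
  eq_of_dist_eq_zero {p q} h := by
    have h0 : rho (p : Pt) (q : Pt) = 0 := h
    apply Pt.ext'
    funext i
    have := coord_le_rho (p : Pt) (q : Pt) i
    rw [h0] at this
    exact sub_eq_zero.mp (abs_eq_zero.mp (le_antisymm this (abs_nonneg _)))

/-- The identity map. -/
def toBase (p : Pt) : Base := p

instance : CompactSpace Base := ⟨by
  have hc : Continuous toBase := by
    have : LipschitzWith 1 toBase := by
      refine LipschitzWith.of_dist_le_mul fun p q => ?_
      rw [NNReal.coe_one, one_mul]
      exact rho_le_dist p q
    exact this.continuous
  have h1 : (Set.univ : Set Base) = toBase '' (Set.univ : Set Pt) := by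
    ext x
    constructor
    · intro _
      exact ⟨x, trivial, rfl⟩
    · intro _
      trivial
  rw [h1]
  exact isCompact_univ.image hc⟩

end Pool.Agent.Lib.MP_136c99_an
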