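import Mathlib

set_option autoImplicit false

/-!
Walsh-type sign matrices with small cross correlations, built from the shift bilinear forms
`B_i(x, y) = sum_l x_l y_{l+i}` over the field with two elements.
-/

namespace Pool.Agent.Lib.MP_136c99_an

open Finset

/-- The nontrivial sign character of `ZMod 2`. -/
def chi (a : ZMod 2) : ℤ := if a = 0 then 1 else -1

lemma chi_add (a b : ZMod 2) : chi (a + b) = chi a * chi b := by
  revert a b; decide

lemma chi_zero : chi 0 = 1 := by decide

lemma chi_cases (a : ZMod 2) : chi a = 1 ∨ chi a = -1 := by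
  revert a; decide

lemma abs_chi (a : ZMod 2) : |chi a| = 1 := by
  revert a; decide

lemma chi_mul_self (a : ZMod 2) : chi a * chi a = 1 := by
  revert a; decide

lemma chi_sum {ι : Type*} (s : Finset ι) (f : ι → ZMod 2) :
    chi (∑ i ∈ s, f i) = ∏ i ∈ s, chi (f i) := by
  classical
  induction s using Finset.induction_on with
  | empty => simp [chi_zero]
  | insert a s ha ih => rw [sum_insert ha, prod_insert ha, chi_add, ih]

lemma sum_chi_mul (c : ZMod 2) : ∑ y : ZMod 2, chi (y * c) = if c = 0 then 2 else 0 := by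
  revert c; decide

lemma sum_chi_dot {n : ℕ} (c : Fin n → ZMod 2) :
    ∑ y : Fin n → ZMod 2, chi (∑ m, y m * c m) = if c = 0 then 2 ^ n else 0 := by
  have h1 : ∀ y : Fin n → ZMod 2, chi (∑ m, y m * c m) = ∏ m, chi (y m * c m) := fun y =>
    chi_sum _ _
  have h2 : ∑ y : Fin n → ZMod 2, ∏ m, chi (y m * c m) = ∏ m, ∑ t : ZMod 2, chi (t * c m) := by
    rw [Finset.prod_univ_sum, Fintype.piFinset_univ]
  rw [Finset.sum_congr rfl (fun y _ => h1 y), h2]
  split_ifs with hc
  · subst hc
    simp [chi_zero]
  · obtain ⟨m, hm⟩ := Function.ne_iff.mp hc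
    apply Finset.prod_eq_zero (mem_univ m)
    rw [sum_chi_mul]
    exact if_neg hm

/-- The shift operators. -/
def R {n : ℕ} (d : Fin 4 → ZMod 2) (x : Fin n → ZMod 2) (m : Fin n) : ZMod 2 :=
  ∑ l : Fin n, ∑ i : Fin 4, if (m : ℕ) = l + i then d i * x l else 0

/-- The combination `sum_i d_i B_i(x, y)` of the shift bilinear forms. -/
def Q {n : ℕ} (d : Fin 4 → ZMod 2) (x y : Fin n → ZMod 2) : ZMod 2 :=
  ∑ m, y m * R d x m

lemma R_add_left {n : ℕ} (d d' : Fin 4 → ZMod 2) (x : Fin n → ZMod 2) (m : Fin n) :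
    R (d + d') x m = R d x m + R d' x m := by
  unfold R
  rw [← sum_add_distrib]
  refine sum_congr rfl fun l _ => ?_
  rw [← sum_add_distrib]
  refine sum_congr rfl fun i _ => ?_
  split_ifs
  · rw [Pi.add_apply, add_mul]
  · simp

lemma R_sub_right {n : ℕ} (d : Fin 4 → ZMod 2) (x x' : Fin n → ZMod 2) (m : Fin n) :
    R d (x - x') m = R d x m - R d x' m := by
  unfold R
  rw [← sum_sub_distrib]
  refine sum_congr rfl fun l _ => ?_
  rw [← sum_sub_distrib]
  refine sum_congr rfl fun i _ => ?_
  split_ifs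
  · rw [Pi.sub_apply, mul_sub]
  · simp

lemma Q_add {n : ℕ} (d d' : Fin 4 → ZMod 2) (x y : Fin n → ZMod 2) :
    Q (d + d') x y = Q d x y + Q d' x y := by
  unfold Q
  rw [← sum_add_distrib]
  refine sum_congr rfl fun m _ => ?_
  rw [R_add_left, mul_add]

lemma R_kernel {n : ℕ} {d : Fin 4 → ZMod 2} (hd : d ≠ 0) {z : Fin n → ZMod 2}
    (hz : ∀ m, R d z m = 0) (l : Fin n) (hl : (l : ℕ) + 3 < n) : z l = 0 := by
  classical
  -- the least index with nonzero coefficient
  obtain ⟨i0, hi0, hmin⟩ : ∃ i0 : Fin 4, d i0 ≠ 0 ∧ ∀ i < i0, d i = 0 := by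
    obtain ⟨i, hi⟩ := Function.ne_iff.mp hd
    have hne : (univ.filter fun i : Fin 4 => d i ≠ 0).Nonempty := ⟨i, by simpa using hi⟩
    refine ⟨(univ.filter fun i : Fin 4 => d i ≠ 0).min' hne, ?_, ?_⟩
    · have := Finset.min'_mem _ hne
      simpa using this
    · intro j hj
      by_contra hne'
      exact absurd (Finset.min'_le _ j (by simpa using hne')) (not_le.mpr hj)
  have hd1 : d i0 = 1 := by
    have : ∀ a : ZMod 2, a ≠ 0 → a = 1 := by decide
    exact this _ hi0
  have hi04 : (i0 : ℕ) < 4 := i0.2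
  have key : ∀ N : ℕ, ∀ l : Fin n, (l : ℕ) = N → (l : ℕ) + i0 < n → z l = 0 := by
    intro N
    induction N using Nat.strong_induction_on with
    | _ N ih =>
      intro l hlN hln
      have hm := hz ⟨(l : ℕ) + i0, hln⟩
      unfold R at hm
      rw [Finset.sum_eq_single l] at hm
      · rw [Finset.sum_eq_single i0] at hm
        · simpa [hd1] using hm
        · intro i _ hne
          rw [if_neg]
          intro h
          apply hne
          apply Fin.ext
          simp only at h
          omega
        · intro h; exact absurd (mem_univ _) h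
      · intro l' _ hne
        refine Finset.sum_eq_zero fun i _ => ?_
        split_ifs with h
        · simp only at h
          by_cases hlt : i < i0
          · rw [hmin i hlt, zero_mul]
          · have h1 : (i0 : ℕ) ≤ i := not_lt.mp hlt
            have h2 : (l' : ℕ) ≠ l := fun h => hne (Fin.ext h)
            have h3 : (l' : ℕ) < l := by omega
            rw [ih l' (by omega) l' rfl (by omega), mul_zero]
        · rfl
      · intro h; exact absurd (mem_univ _) h
  exact key _ l rfl (by omega)

lemma card_solutions {n : ℕ} {d : Fin 4 → ZMod 2} (hd : d ≠ 0) (b : Fin n → ZMod 2) :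
    (univ.filter fun x : Fin n → ZMod 2 => ∀ m, R d x m + b m = 0).card ≤ 8 := by
  classical
  let f : (Fin n → ZMod 2) → (Fin 3 → ZMod 2) := fun x t =>
    if h : (t : ℕ) < n then x ⟨n - 1 - t, by omega⟩ else 0
  have hinj : Set.InjOn f
      ((univ.filter fun x : Fin n → ZMod 2 => ∀ m, R d x m + b m = 0) : Finset _) := by
    intro x hx x' hx' hxx
    simp only [coe_filter, mem_univ, true_and, Set.mem_ofPred_eq] at hx hx'
    have hz : ∀ m, R d (x - x') m = 0 := by
      intro m
      rw [R_sub_right]
      have h1 := hx m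
      have h2 := hx' m
      linear_combination h1 - h2
    funext l
    by_cases hl : (l : ℕ) + 3 < n
    · have := R_kernel hd hz l hl
      rw [Pi.sub_apply] at this
      exact sub_eq_zero.mp this
    · have hl2 := l.2
      have ht : n - 1 - (l : ℕ) < 3 := by omega
      have := congrFun hxx ⟨n - 1 - (l : ℕ), ht⟩
      simp only [f] at this
      rw [dif_pos (by omega), dif_pos (by omega)] at this
      have he : (⟨n - 1 - (n - 1 - (l : ℕ)), by omega⟩ : Fin n) = l := by
        apply Fin.ext; simp only; omega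
      rw [he] at this
      exact this
  have := Finset.card_le_card_of_injOn f (t := univ) (fun _ _ => mem_univ _) hinj
  have hc : (univ : Finset (Fin 3 → ZMod 2)).card = 8 := by
    rw [Finset.card_univ, Fintype.card_fun]
    simp [ZMod.card]
  omega

/-- Main character sum estimate. -/
lemma bias {n : ℕ} {d : Fin 4 → ZMod 2} (hd : d ≠ 0) (a b : Fin n → ZMod 2) :
    |∑ x : Fin n → ZMod 2, ∑ y : Fin n → ZMod 2,
      chi (Q d x y + ∑ m, x m * a m + ∑ m, y m * b m)| ≤ 2 ^ n * 8 := by
  classical
  have h1 : ∀ x : Fin n → ZMod 2, ∑ y : Fin n → ZMod 2,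
      chi (Q d x y + ∑ m, x m * a m + ∑ m, y m * b m)
      = chi (∑ m, x m * a m) * (if (fun m => R d x m + b m) = 0 then 2 ^ n else 0) := by
    intro x
    rw [← sum_chi_dot, mul_sum]
    refine sum_congr rfl fun y _ => ?_
    rw [← chi_add]
    congr 1
    unfold Q
    simp only [mul_add, sum_add_distrib]
    ring
  rw [sum_congr rfl fun x _ => h1 x]
  have h2 : ∀ x : Fin n → ZMod 2,
      |chi (∑ m, x m * a m) * (if (fun m => R d x m + b m) = 0 then (2:ℤ) ^ n else 0)|
      = if (∀ m, R d x m + b m = 0) then 2 ^ n else 0 := by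
    intro x
    rw [abs_mul, abs_chi, one_mul]
    by_cases h : ∀ m, R d x m + b m = 0
    · have h' : (fun m => R d x m + b m) = 0 := funext h
      rw [if_pos h, if_pos h', abs_of_nonneg (by positivity)]
    · have h' : ¬ (fun m => R d x m + b m) = 0 := fun h' => h (fun m => congrFun h' m)
      rw [if_neg h, if_neg h', abs_zero]
  calc |∑ x : Fin n → ZMod 2,
          chi (∑ m, x m * a m) * (if (fun m => R d x m + b m) = 0 then (2:ℤ) ^ n else 0)|
      ≤ ∑ x : Fin n → ZMod 2,
          |chi (∑ m, x m * a m) * (if (fun m => R d x m + b m) = 0 then (2:ℤ) ^ n else 0)| :=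
        abs_sum_le_sum_abs _ _
    _ = ∑ x : Fin n → ZMod 2, (if (∀ m, R d x m + b m = 0) then (2:ℤ) ^ n else 0) :=
        sum_congr rfl fun x _ => h2 x
    _ = ((univ.filter fun x : Fin n → ZMod 2 => ∀ m, R d x m + b m = 0).card : ℤ) * 2 ^ n := by
        rw [← sum_filter, sum_const, nsmul_eq_mul]
    _ ≤ 8 * 2 ^ n := by
        have := card_solutions hd b
        gcongr
        exact_mod_cast this
    _ = 2 ^ n * 8 := by ring

end Pool.Agent.Lib.MP_136c99_an
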