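import Pool.Agent.Lib.MP_136c99_an.Transport

set_option autoImplicit false

/-!
The trace vectors of the telescoping argument have exponentially small norm.
-/

namespace Pool.Agent.Lib.MP_136c99_an

open Finset

/-- `q = 2^(-1/8)`. -/
noncomputable def qq : ℝ := (2 : ℝ) ^ (-(1 / 8) : ℝ)

lemma qq_pos : 0 < qq := by unfold qq; positivity

lemma qq_lt_one : qq < 1 := by
  unfold qq
  exact Real.rpow_lt_one_of_one_lt_of_neg (by norm_num) (by norm_num)

lemma qq_pow_eight : qq ^ 8 = 1 / 2 := by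
  unfold qq
  rw [← Real.rpow_natCast, ← Real.rpow_mul (by norm_num)]
  norm_num

lemma qq_pow_al (m : ℕ) : (qq ^ (8 * m)) ^ al = qq ^ (7 * m) := by
  rw [← Real.rpow_natCast, ← Real.rpow_mul qq_pos.le, ← Real.rpow_natCast]
  congr 1
  unfold al
  push_cast
  ring

lemma half_pow (k : ℕ) : (1 / 2 : ℝ) ^ k = qq ^ (8 * k) := by
  rw [pow_mul, qq_pow_eight]

lemma wd_eq (i : Idx) : wd i = qq ^ (24 * (i.1 + 1)) := by
  unfold wd
  have : qq ^ 24 = 1 / 8 := by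
    have : qq ^ 24 = (qq ^ 8) ^ 3 := by rw [← pow_mul]
    rw [this, qq_pow_eight]; norm_num
  rw [pow_mul, this]

lemma wd_al (i : Idx) : wd i ^ al = qq ^ (21 * (i.1 + 1)) := by
  rw [wd_eq]
  have := qq_pow_al (3 * (i.1 + 1))
  rw [show 8 * (3 * (i.1 + 1)) = 24 * (i.1 + 1) by ring,
    show 7 * (3 * (i.1 + 1)) = 21 * (i.1 + 1) by ring] at this
  exact this

/-- The integer shift of transition `(k, g)`. -/
def rr (k : ℕ) (g : G k) (i : Idx) : ℤ :=
  if h : i.1 = k then -(sg k (h ▸ i.2) g)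
  else if h : i.1 = k + 1 then 16 * tg k (h ▸ i.2) g else 0

lemma rr_level (k : ℕ) (g : G k) (j : J k) : rr k g ⟨k, j⟩ = -(sg k j g) := by
  simp [rr]

lemma rr_next (k : ℕ) (g : G k) (j : J (k + 1)) : rr k g ⟨k + 1, j⟩ = 16 * tg k j g := by
  simp [rr]

lemma rr_other (k : ℕ) (g : G k) (i : Idx) (h1 : i.1 ≠ k) (h2 : i.1 ≠ k + 1) :
    rr k g i = 0 := by
  simp [rr, h1, h2]

/-- The coordinates of level `k`. -/
def lev (k : ℕ) : Finset Idx := univ.map ⟨fun j : J k => (⟨k, j⟩ : Idx), sigma_mk_injective⟩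

lemma mem_lev {k : ℕ} {i : Idx} : i ∈ lev k ↔ i.1 = k := by
  unfold lev
  simp only [mem_map, mem_univ, true_and, Function.Embedding.coeFn_mk]
  constructor
  · rintro ⟨j, rfl⟩; rfl
  · intro h
    obtain ⟨l, j⟩ := i
    simp only at h
    subst h
    exact ⟨j, rfl⟩

lemma lev_disj (k : ℕ) : Disjoint (lev k) (lev (k + 1)) := by
  rw [Finset.disjoint_left]
  intro i h1 h2
  rw [mem_lev] at h1 h2
  omega

/-- Coordinates involved in a transition. -/
def lev2 (k : ℕ) : Finset Idx := (lev k).disjUnion (lev (k + 1)) (lev_disj k)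

lemma mem_lev2 {k : ℕ} {i : Idx} : i ∈ lev2 k ↔ i.1 = k ∨ i.1 = k + 1 := by
  unfold lev2
  rw [mem_disjUnion, mem_lev, mem_lev]

lemma sum_lev {M : Type*} [AddCommMonoid M] (k : ℕ) (F : Idx → M) :
    ∑ i ∈ lev k, F i = ∑ j : J k, F ⟨k, j⟩ := by
  unfold lev
  rw [sum_map]
  rfl

lemma sum_lev2 {M : Type*} [AddCommMonoid M] (k : ℕ) (F : Idx → M) :
    ∑ i ∈ lev2 k, F i = ∑ j : J k, F ⟨k, j⟩ + ∑ j : J (k + 1), F ⟨k + 1, j⟩ := by
  unfold lev2
  rw [sum_disjUnion, sum_lev, sum_lev]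

/-- The time scale of a transition. -/
noncomputable def ss (k : ℕ) : ℝ := qq ^ (32 * (k + 1))

lemma ss_eq (k : ℕ) : ss k = (1 / 16 : ℝ) ^ (k + 1) := by
  unfold ss
  have : qq ^ 32 = 1 / 16 := by
    have : qq ^ 32 = (qq ^ 8) ^ 4 := by rw [← pow_mul]
    rw [this, qq_pow_eight]; norm_num
  rw [pow_mul, this]

lemma ss_pos (k : ℕ) : 0 < ss k := by unfold ss; have := qq_pos; positivity

lemma hh_level (k : ℕ) (j : J k) : hh ⟨k, j⟩ = ss k * ((4 : ℝ) ^ k)⁻¹ := by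
  rw [ss_eq]
  unfold hh
  simp only
  rw [pow_succ, ← inv_pow, div_eq_mul_inv, mul_assoc ((1/16:ℝ)^k), mul_comm (1/16:ℝ),
    ← mul_assoc, ← mul_pow]
  norm_num

lemma hh_next (k : ℕ) (j : J (k + 1)) :
    16 * hh ⟨k + 1, j⟩ = ss k * ((4 : ℝ) ^ (k + 1))⁻¹ := by
  rw [ss_eq]
  unfold hh
  simp only
  rw [← inv_pow, ← mul_pow]
  norm_num
  ring

lemma abs_rr_level (k : ℕ) (g : G k) (j : J k) : |(rr k g ⟨k, j⟩ : ℝ)| = 1 := by
  rw [rr_level]
  push_cast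
  rw [abs_neg, abs_sg]

lemma abs_rr_next (k : ℕ) (g : G k) (j : J (k + 1)) : |(rr k g ⟨k + 1, j⟩ : ℝ)| = 16 := by
  rw [rr_next]
  push_cast
  rw [abs_mul, abs_tg]
  norm_num

lemma rr_hh_le (k : ℕ) (g : G k) : ∀ i ∈ lev2 k, |(rr k g i : ℝ)| * hh i ≤ wd i := by
  intro i hi
  rw [mem_lev2] at hi
  rw [← mm_mul_hh]
  apply mul_le_mul_of_nonneg_right _ (hh_pos i).le
  obtain ⟨l, j⟩ := i
  rcases hi with h | h
  · simp only at h
    subst h
    rw [abs_rr_level]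
    have : 1 ≤ mm ⟨l, j⟩ := mm_pos _
    exact_mod_cast this
  · simp only at h
    subst h
    rw [abs_rr_next]
    have : 16 ≤ mm (⟨k + 1, j⟩ : Idx) := by
      unfold mm
      simp only
      have : 1 ≤ 8 ^ k := Nat.one_le_pow _ _ (by norm_num)
      rw [pow_succ]
      omega
    exact_mod_cast this

lemma sum_abs_rr_hh (k : ℕ) (g : G k) : ∑ i ∈ lev2 k, |(rr k g i : ℝ)| * hh i = 2 * ss k := by
  rw [sum_lev2]
  have a1 : ∀ j : J k, |(rr k g ⟨k, j⟩ : ℝ)| * hh ⟨k, j⟩ = ss k * ((4 : ℝ) ^ k)⁻¹ := by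
    intro j
    rw [abs_rr_level, one_mul, hh_level]
  have a2 : ∀ j : J (k + 1), |(rr k g ⟨k + 1, j⟩ : ℝ)| * hh ⟨k + 1, j⟩
      = ss k * ((4 : ℝ) ^ (k + 1))⁻¹ := by
    intro j
    rw [abs_rr_next, hh_next]
  rw [sum_congr rfl fun j _ => a1 j, sum_congr rfl fun j _ => a2 j,
    sum_const, sum_const, card_univ, card_univ, card_J, card_J, nsmul_eq_mul, nsmul_eq_mul]
  push_cast
  have h1 : (4 : ℝ) ^ k ≠ 0 := by positivity
  have h2 : (4 : ℝ) ^ (k + 1) ≠ 0 := by positivity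
  field_simp
  ring

lemma sum_abs_rr_mm (k : ℕ) (g : G k) :
    ∑ i ∈ lev2 k, |(rr k g i : ℝ)| / mm i = 9 / 2 * (1 / 2 : ℝ) ^ k := by
  rw [sum_lev2]
  simp only [abs_rr_level, abs_rr_next]
  unfold mm
  simp only
  rw [sum_const, sum_const, card_univ, card_univ, card_J, card_J, nsmul_eq_mul, nsmul_eq_mul]
  push_cast
  have h1 : (8 : ℝ) ^ k = 4 ^ k * 2 ^ k := by rw [← mul_pow]; norm_num
  rw [pow_succ, pow_succ, h1, div_pow, one_pow]
  have h2 : (4 : ℝ) ^ k ≠ 0 := by positivity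
  have h3 : (2 : ℝ) ^ k ≠ 0 := by positivity
  field_simp
  norm_num

/-- The direction vector of a transition, scaled. -/
noncomputable def vv (k : ℕ) (g : G k) : Idx → ℝ := fun i => (rr k g i : ℝ) * hh i

lemma vv_level (k : ℕ) (g : G k) (j : J k) :
    vv k g ⟨k, j⟩ = -(ss k * ((4 : ℝ) ^ k)⁻¹ * sg k j g) := by
  unfold vv
  rw [rr_level, hh_level]
  push_cast
  ring

lemma vv_next (k : ℕ) (g : G k) (j : J (k + 1)) :
    vv k g ⟨k + 1, j⟩ = ss k * ((4 : ℝ) ^ (k + 1))⁻¹ * tg k j g := by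
  unfold vv
  rw [rr_next, ← hh_next k j]
  push_cast
  ring

lemma vv_other (k : ℕ) (g : G k) (i : Idx) (h1 : i.1 ≠ k) (h2 : i.1 ≠ k + 1) :
    vv k g i = 0 := by
  unfold vv
  rw [rr_other k g i h1 h2]
  simp

lemma ev_vv_le (k : ℕ) (g : G k) (e : Evs) : |ev e (vv k g)| ≤ ss k * (16 * (1 / 2 : ℝ) ^ k) := by
  obtain ⟨l, h⟩ := e
  have hs := ss_pos k
  have h2k : (0 : ℝ) < 2 ^ k := by positivity
  have h4k : (0 : ℝ) < 4 ^ k := by positivity
  have h42 : (4 : ℝ) ^ k = 2 ^ k * 2 ^ k := by rw [← mul_pow]; norm_num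
  rw [ev_apply]
  simp only
  rcases eq_or_ne l k with rfl | hlk
  · -- same level
    simp only [vv_level, vv_next]
    have key := corr_same g h
    have key' : |∑ j : J (l + 1), (tg l j g : ℝ) * tg l j h
        - 4 * ∑ j : J l, (sg l j g : ℝ) * sg l j h| ≤ 64 * 2 ^ l := by exact_mod_cast key
    have e1 : ∑ j : J l, (sg l j h : ℝ) * -(ss l * ((4 : ℝ) ^ l)⁻¹ * sg l j g)
        + ∑ j : J (l + 1), (tg l j h : ℝ) * (ss l * ((4 : ℝ) ^ (l + 1))⁻¹ * tg l j g)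
        = ss l * ((4 : ℝ) ^ (l + 1))⁻¹ * (∑ j : J (l + 1), (tg l j g : ℝ) * tg l j h
          - 4 * ∑ j : J l, (sg l j g : ℝ) * sg l j h) := by
      have a1 : ∑ j : J l, (sg l j h : ℝ) * -(ss l * ((4 : ℝ) ^ l)⁻¹ * sg l j g)
          = -(ss l * ((4 : ℝ) ^ l)⁻¹) * ∑ j : J l, (sg l j g : ℝ) * sg l j h := by
        rw [mul_sum]; exact sum_congr rfl fun j _ => by ring
      have a2 : ∑ j : J (l + 1), (tg l j h : ℝ) * (ss l * ((4 : ℝ) ^ (l + 1))⁻¹ * tg l j g)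
          = ss l * ((4 : ℝ) ^ (l + 1))⁻¹ * ∑ j : J (l + 1), (tg l j g : ℝ) * tg l j h := by
        rw [mul_sum]; exact sum_congr rfl fun j _ => by ring
      rw [a1, a2, pow_succ]
      field_simp
      ring
    rw [e1, abs_mul, abs_of_pos (by positivity)]
    calc ss l * ((4 : ℝ) ^ (l + 1))⁻¹ * |∑ j : J (l + 1), (tg l j g : ℝ) * tg l j h
          - 4 * ∑ j : J l, (sg l j g : ℝ) * sg l j h|
        ≤ ss l * ((4 : ℝ) ^ (l + 1))⁻¹ * (64 * 2 ^ l) := by gcongr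
      _ = ss l * (16 * (1 / 2 : ℝ) ^ l) := by
          rw [pow_succ, h42, one_div, inv_pow]
          field_simp
          norm_num
  · rcases eq_or_ne l (k + 1) with rfl | hlk1
    · -- next level
      have z : ∀ j : J (k + 1 + 1), vv k g ⟨k + 1 + 1, j⟩ = 0 := fun j =>
        vv_other k g _ (by simp only; omega) (by simp only; omega)
      simp only [vv_next, z, mul_zero, sum_const_zero, add_zero]
      have key := corr_next g h
      have key' : |∑ j : J (k + 1), (tg k j g : ℝ) * sg (k + 1) j h| ≤ 32 * 2 ^ k := by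
        exact_mod_cast key
      have e1 : ∑ j : J (k + 1), (sg (k + 1) j h : ℝ) * (ss k * ((4 : ℝ) ^ (k + 1))⁻¹ * tg k j g)
          = ss k * ((4 : ℝ) ^ (k + 1))⁻¹ * ∑ j : J (k + 1), (tg k j g : ℝ) * sg (k + 1) j h := by
        rw [mul_sum]; exact sum_congr rfl fun j _ => by ring
      rw [e1, abs_mul, abs_of_pos (by positivity)]
      calc ss k * ((4 : ℝ) ^ (k + 1))⁻¹ * |∑ j : J (k + 1), (tg k j g : ℝ) * sg (k + 1) j h|
          ≤ ss k * ((4 : ℝ) ^ (k + 1))⁻¹ * (32 * 2 ^ k) := by gcongr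
        _ = ss k * (8 * (1 / 2 : ℝ) ^ k) := by
            rw [pow_succ, h42, one_div, inv_pow]
            field_simp
            norm_num
        _ ≤ ss k * (16 * (1 / 2 : ℝ) ^ k) := by gcongr; norm_num
    · rcases eq_or_ne (l + 1) k with rfl | hlk2
      · -- previous level
        have z : ∀ j : J l, vv (l + 1) g ⟨l, j⟩ = 0 := fun j =>
          vv_other (l + 1) g _ (by simp only; omega) (by simp only; omega)
        simp only [vv_level, z, mul_zero, sum_const_zero, zero_add]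
        have key := corr_next h g
        have key' : |∑ j : J (l + 1), (tg l j h : ℝ) * sg (l + 1) j g| ≤ 32 * 2 ^ l := by
          exact_mod_cast key
        have e1 : ∑ j : J (l + 1), (tg l j h : ℝ)
              * -(ss (l + 1) * ((4 : ℝ) ^ (l + 1))⁻¹ * sg (l + 1) j g)
            = -(ss (l + 1) * ((4 : ℝ) ^ (l + 1))⁻¹)
              * ∑ j : J (l + 1), (tg l j h : ℝ) * sg (l + 1) j g := by
          rw [mul_sum]; exact sum_congr rfl fun j _ => by ring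
        rw [e1, abs_mul, abs_neg, abs_of_pos (by positivity)]
        calc ss (l + 1) * ((4 : ℝ) ^ (l + 1))⁻¹
              * |∑ j : J (l + 1), (tg l j h : ℝ) * sg (l + 1) j g|
            ≤ ss (l + 1) * ((4 : ℝ) ^ (l + 1))⁻¹ * (32 * 2 ^ l) := by gcongr
          _ = ss (l + 1) * (16 * (1 / 2 : ℝ) ^ (l + 1)) := by
              have h42' : (4 : ℝ) ^ l = 2 ^ l * 2 ^ l := by rw [← mul_pow]; norm_num
              rw [pow_succ, pow_succ (1 / 2 : ℝ), h42', one_div, inv_pow]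
              field_simp
              norm_num
      · have z1 : ∀ j : J l, vv k g ⟨l, j⟩ = 0 := fun j =>
          vv_other k g _ (by simpa using hlk) (by simpa using hlk1)
        have z2 : ∀ j : J (l + 1), vv k g ⟨l + 1, j⟩ = 0 := fun j =>
          vv_other k g _ (by simpa using hlk2) (by simp only; omega)
        simp only [z1, z2, mul_zero, sum_const_zero, add_zero, abs_zero]
        positivity

lemma sum_ev_eq (k : ℕ) (g : G k) (e : Evs) :
    ∑ i ∈ lev2 k, ((rr k g i : ℝ) * hh i) * ev e (Pi.single i 1) = ev e (vv k g) := by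
  have h1 : vv k g = ∑ i ∈ lev2 k, Pi.single i (vv k g i) := by
    funext j
    rw [sum_single_apply]
    split_ifs with h
    · rfl
    · rw [mem_lev2] at h
      push Not at h
      exact vv_other k g j h.1 h.2
  have h2 : ev e (vv k g) = ∑ i ∈ lev2 k, ev e (Pi.single i (vv k g i)) := by
    conv_lhs => rw [h1, map_sum]
  rw [h2]
  refine sum_congr rfl fun i hi => ?_
  have hs : (Pi.single i (vv k g i) : Idx → ℝ)
      = (vv k g i) • (Pi.single i (1 : ℝ) : Idx → ℝ) := by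
    rw [← Pi.single_smul, smul_eq_mul, mul_one]
  rw [hs, map_smul, smul_eq_mul]
  rfl

/-- Final scalar form of the estimate. -/
theorem scalar_estimate (f : Pt → ℝ) (hf : ∀ p q, |f p - f q| ≤ dist p q) (n k : ℕ) (g : G k)
    (hn : ∀ i ∈ lev2 k, enum.symm i < n) :
    |((4 : ℝ) ^ (k + 1))⁻¹ * ∑ j : J (k + 1), (tg k j g : ℝ)
        * ((wd ⟨k + 1, j⟩)⁻¹ * DD n (fun x => f (toP x)) ⟨k + 1, j⟩)
      - ((4 : ℝ) ^ k)⁻¹ * ∑ j : J k, (sg k j g : ℝ)
        * ((wd ⟨k, j⟩)⁻¹ * DD n (fun x => f (toP x)) ⟨k, j⟩)|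
      ≤ 34 * (qq ^ 4)⁻¹ * qq ^ (3 * k) := by
  have hT := transport f hf n (lev2 k) (rr k g) hn (rr_hh_le k g)
    (ss k * (16 * (1 / 2 : ℝ) ^ k)) (fun e => by rw [sum_ev_eq]; exact ev_vv_le k g e)
  rw [sum_abs_rr_hh, sum_abs_rr_mm, sum_lev2] at hT
  set D1 := DD n (fun x => f (toP x)) with hD1
  have e1 : ∑ j : J k, (rr k g ⟨k, j⟩ : ℝ) * hh ⟨k, j⟩ * ((wd ⟨k, j⟩)⁻¹ * D1 ⟨k, j⟩)
      + ∑ j : J (k + 1), (rr k g ⟨k + 1, j⟩ : ℝ) * hh ⟨k + 1, j⟩
        * ((wd ⟨k + 1, j⟩)⁻¹ * D1 ⟨k + 1, j⟩)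
      = ss k * (((4 : ℝ) ^ (k + 1))⁻¹ * ∑ j : J (k + 1), (tg k j g : ℝ)
        * ((wd ⟨k + 1, j⟩)⁻¹ * D1 ⟨k + 1, j⟩)
      - ((4 : ℝ) ^ k)⁻¹ * ∑ j : J k, (sg k j g : ℝ)
        * ((wd ⟨k, j⟩)⁻¹ * D1 ⟨k, j⟩)) := by
    have a1 : ∀ j : J k, (rr k g ⟨k, j⟩ : ℝ) * hh ⟨k, j⟩
        = -(ss k * ((4 : ℝ) ^ k)⁻¹ * sg k j g) := fun j => vv_level k g j
    have a2 : ∀ j : J (k + 1), (rr k g ⟨k + 1, j⟩ : ℝ) * hh ⟨k + 1, j⟩
        = ss k * ((4 : ℝ) ^ (k + 1))⁻¹ * tg k j g := fun j => vv_next k g j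
    simp only [a1, a2]
    rw [mul_sub, mul_sum, mul_sum, mul_sum, mul_sum, add_comm, sub_eq_add_neg,
      ← sum_neg_distrib]
    congr 1
    · exact sum_congr rfl fun j _ => by ring
    · exact sum_congr rfl fun j _ => by ring
  rw [e1, abs_mul, abs_of_pos (ss_pos k)] at hT
  have hq := qq_pos
  have hq1 := qq_lt_one
  -- bounds of the right-hand side
  have b1 : (ss k * (16 * (1 / 2 : ℝ) ^ k)) ^ al ≤ 16 * qq ^ (28 * (k + 1) + 7 * k) := by
    have : ss k * (16 * (1 / 2 : ℝ) ^ k) = 16 * qq ^ (8 * (4 * (k + 1) + k)) := by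
      rw [half_pow]
      unfold ss
      rw [show 8 * (4 * (k + 1) + k) = 32 * (k + 1) + 8 * k by ring, pow_add]
      ring
    rw [this, Real.mul_rpow (by norm_num) (by positivity), qq_pow_al]
    have h16 : (16 : ℝ) ^ al ≤ 16 := by
      calc (16 : ℝ) ^ al ≤ 16 ^ (1 : ℝ) :=
            Real.rpow_le_rpow_of_exponent_le (by norm_num) al_le_one
        _ = 16 := Real.rpow_one _
    rw [show 7 * (4 * (k + 1) + k) = 28 * (k + 1) + 7 * k by ring]
    gcongr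
  have b2 : (2 * ss k) ^ al ≤ 2 * qq ^ (28 * (k + 1)) := by
    have : (2 * ss k) = 2 * qq ^ (8 * (4 * (k + 1))) := by
      unfold ss
      rw [show 8 * (4 * (k + 1)) = 32 * (k + 1) by ring]
    rw [this, Real.mul_rpow (by norm_num) (by positivity), qq_pow_al]
    have h2 : (2 : ℝ) ^ al ≤ 2 := by
      calc (2 : ℝ) ^ al ≤ 2 ^ (1 : ℝ) :=
            Real.rpow_le_rpow_of_exponent_le (by norm_num) al_le_one
        _ = 2 := Real.rpow_one _
    rw [show 7 * (4 * (k + 1)) = 28 * (k + 1) by ring]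
    gcongr
  have b3 : (9 / 2 * (1 / 2 : ℝ) ^ k) * (2 * (2 * ss k) ^ al)
      ≤ 18 * qq ^ (28 * (k + 1) + 7 * k) := by
    calc (9 / 2 * (1 / 2 : ℝ) ^ k) * (2 * (2 * ss k) ^ al)
        ≤ (9 / 2 * (1 / 2 : ℝ) ^ k) * (2 * (2 * qq ^ (28 * (k + 1)))) := by gcongr
      _ = 18 * (qq ^ (28 * (k + 1)) * qq ^ (8 * k)) := by rw [half_pow]; ring
      _ ≤ 18 * (qq ^ (28 * (k + 1)) * qq ^ (7 * k)) := by
          have : qq ^ (8 * k) ≤ qq ^ (7 * k) :=
            pow_le_pow_of_le_one hq.le hq1.le (by omega)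
          gcongr
      _ = 18 * qq ^ (28 * (k + 1) + 7 * k) := by rw [pow_add]
  have hfin := hT.trans (add_le_add b1 b3)
  have hss : ss k * (34 * (qq ^ 4)⁻¹ * qq ^ (3 * k))
      = 16 * qq ^ (28 * (k + 1) + 7 * k) + 18 * qq ^ (28 * (k + 1) + 7 * k) := by
    unfold ss
    have h4 : qq ^ 4 ≠ 0 := by positivity
    have : qq ^ (32 * (k + 1)) * qq ^ (3 * k) = qq ^ 4 * qq ^ (28 * (k + 1) + 7 * k) := by
      rw [← pow_add, ← pow_add]
      congr 1
      ring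
    calc qq ^ (32 * (k + 1)) * (34 * (qq ^ 4)⁻¹ * qq ^ (3 * k))
        = 34 * (qq ^ 4)⁻¹ * (qq ^ (32 * (k + 1)) * qq ^ (3 * k)) := by ring
      _ = 34 * (qq ^ 4)⁻¹ * (qq ^ 4 * qq ^ (28 * (k + 1) + 7 * k)) := by rw [this]
      _ = 16 * qq ^ (28 * (k + 1) + 7 * k) + 18 * qq ^ (28 * (k + 1) + 7 * k) := by
          field_simp
          ring
  rw [← hss] at hfin
  exact le_of_mul_le_mul_left hfin (ss_pos k)

end Pool.Agent.Lib.MP_136c99_an
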