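import Mathlib

set_option autoImplicit false

/-!
Existence of the Lipschitz-free space of a pointed metric space, with its universal property.
-/

namespace Pool.Agent.Lib.MP_136c99_an

open Set

theorem exists_free (M : Type) [MetricSpace M] (x0 : M) :
    ∃ (E : Type) (_ : NormedAddCommGroup E) (_ : NormedSpace ℝ E) (_ : CompleteSpace E)
      (δ : M → E), δ x0 = 0 ∧ (∀ x y : M, ‖δ x - δ y‖ = dist x y) ∧
      Dense ((Submodule.span ℝ (Set.range δ) : Submodule ℝ E) : Set E) ∧
      (∀ f : M → ℝ, f x0 = 0 → (∀ a b : M, |f a - f b| ≤ dist a b) →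
        ∃ φ : E →L[ℝ] ℝ, ‖φ‖ ≤ 1 ∧ ∀ x : M, φ (δ x) = f x) := by
  classical
  let B : Type := {f : M → ℝ // f x0 = 0 ∧ ∀ a b, |f a - f b| ≤ dist a b}
  let _ : TopologicalSpace B := ⊥
  have _ : DiscreteTopology B := ⟨rfl⟩
  let δ0 : M → BoundedContinuousFunction B ℝ := fun x =>
    BoundedContinuousFunction.ofNormedAddCommGroupDiscrete (fun f => f.1 x) (dist x x0)
      (fun f => by
        have := f.2.2 x x0
        rw [f.2.1, sub_zero] at this
        simpa [Real.norm_eq_abs] using this)
  have hδ0 : ∀ x (f : B), δ0 x f = f.1 x := fun x f => rfl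
  let S : Submodule ℝ (BoundedContinuousFunction B ℝ) := Submodule.span ℝ (Set.range δ0)
  let E : Submodule ℝ (BoundedContinuousFunction B ℝ) := S.topologicalClosure
  have hclosed : IsClosed (E : Set (BoundedContinuousFunction B ℝ)) :=
    S.isClosed_topologicalClosure
  have hcomp : CompleteSpace E := hclosed.completeSpace_coe
  have hmem : ∀ x, δ0 x ∈ E := fun x =>
    S.le_topologicalClosure (Submodule.subset_span ⟨x, rfl⟩)
  let δ : M → E := fun x => ⟨δ0 x, hmem x⟩
  refine ⟨E, inferInstance, inferInstance, hcomp, δ, ?_, ?_, ?_, ?_⟩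
  · apply Subtype.ext
    ext f
    exact f.2.1
  · intro x y
    rw [← dist_eq_norm, Subtype.dist_eq]
    apply le_antisymm
    · rw [BoundedContinuousFunction.dist_le dist_nonneg]
      intro f
      rw [Real.dist_eq]
      exact f.2.2 x y
    · let f : B := ⟨fun z => dist z y - dist x0 y, by simp, fun a b => by
        have h1 := dist_triangle a b y
        have h2 := dist_triangle b a y
        rw [dist_comm b a] at h2
        rw [abs_le]
        constructor <;> linarith⟩
      have h := BoundedContinuousFunction.dist_coe_le_dist (f := δ0 x) (g := δ0 y) f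
      rw [Real.dist_eq, hδ0, hδ0] at h
      have h2 : f.1 x - f.1 y = dist x y := by simp [f]
      rw [h2, abs_of_nonneg dist_nonneg] at h
      exact h
  · rw [Subtype.dense_iff]
    have : Subtype.val '' ((Submodule.span ℝ (Set.range δ) : Submodule ℝ E) : Set E)
        = (S : Set (BoundedContinuousFunction B ℝ)) := by
      have h1 : Submodule.map E.subtype (Submodule.span ℝ (Set.range δ)) = S := by
        rw [Submodule.map_span, ← Set.range_comp]
        rfl
      rw [← h1]
      rfl
    intro z hz
    have h3 : z ∈ closure (S : Set (BoundedContinuousFunction B ℝ)) := hz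
    rw [← this] at h3
    exact h3
  · intro f hf0 hf
    let fb : B := ⟨f, hf0, hf⟩
    refine ⟨(BoundedContinuousFunction.evalCLM ℝ fb).comp E.subtypeL, ?_, fun x => rfl⟩
    refine ContinuousLinearMap.opNorm_le_bound _ zero_le_one fun z => ?_
    rw [one_mul]
    exact BoundedContinuousFunction.norm_coe_le_norm z.1 fb

end Pool.Agent.Lib.MP_136c99_an
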