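import Pool.Agent.Lib.MP_136c99_an.Bits

set_option autoImplicit false

/-!
The sign matrices `sg k : J k → G k → ±1` and `tg k : J (k+1) → G k → ±1`.
-/

namespace Pool.Agent.Lib.MP_136c99_an

open Finset

abbrev V (n : ℕ) := Fin n → ZMod 2

/-- Indices of the basis vectors of level `k`. -/
abbrev J (k : ℕ) := V k × V k

/-- Evaluation points of level `k`. -/
abbrev G (k : ℕ) := V k × V k × V 3

def hat (c : V 3) (e : ZMod 2) : Fin 4 → ZMod 2 := ![c 0, c 1, c 2, e]

lemma hat_add (c c' : V 3) (e e' : ZMod 2) : hat c e + hat c' e' = hat (c + c') (e + e') := by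
  funext i
  fin_cases i <;> simp [hat]

lemma hat_ne_zero_of_one (c : V 3) : hat c 1 ≠ 0 := by
  intro h
  have := congrFun h 3
  simp [hat] at this

lemma hat_ne_zero {c : V 3} (hc : c ≠ 0) (e : ZMod 2) : hat c e ≠ 0 := by
  intro h
  apply hc
  funext i
  fin_cases i
  · simpa [hat] using congrFun h 0
  · simpa [hat] using congrFun h 1
  · simpa [hat] using congrFun h 2

/-- The exponent shared by both families. -/
def ex {n : ℕ} (d : Fin 4 → ZMod 2) (a b x y : V n) : ZMod 2 :=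
  Q d x y + ∑ m, x m * a m + ∑ m, y m * b m

lemma ex_add {n : ℕ} (d d' : Fin 4 → ZMod 2) (a a' b b' x y : V n) :
    ex d a b x y + ex d' a' b' x y = ex (d + d') (a + a') (b + b') x y := by
  unfold ex
  rw [Q_add]
  simp only [Pi.add_apply, mul_add, sum_add_distrib]
  ring

def sg (k : ℕ) (j : J k) (g : G k) : ℤ := chi (ex (hat g.2.2 1) g.1 g.2.1 j.1 j.2)

def tg (k : ℕ) (j : J (k + 1)) (g : G k) : ℤ :=
  chi (ex (hat g.2.2 0) g.1 g.2.1 (Fin.tail j.1) (Fin.tail j.2)
    + (g.2.2 0 + g.2.2 1 * j.1 0 + g.2.2 2 * j.2 0))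

lemma sg_cases (k : ℕ) (j : J k) (g : G k) : sg k j g = 1 ∨ sg k j g = -1 := chi_cases _
lemma tg_cases (k : ℕ) (j : J (k + 1)) (g : G k) : tg k j g = 1 ∨ tg k j g = -1 := chi_cases _

lemma card_J (k : ℕ) : Fintype.card (J k) = 4 ^ k := by
  simp only [Fintype.card_prod, Fintype.card_fun, ZMod.card, Fintype.card_fin]
  rw [← mul_pow]
  norm_num

lemma card_G (k : ℕ) : Fintype.card (G k) = 8 * 4 ^ k := by
  simp only [Fintype.card_prod, Fintype.card_fun, ZMod.card, Fintype.card_fin]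
  have : (4:ℕ) ^ k = 2 ^ k * 2 ^ k := by
    rw [← mul_pow]; norm_num
  rw [this]; ring

/-- Sum over the evaluation points of a product function. -/
lemma sum_G {k : ℕ} (u v : V k) (F : V 3 → ℤ) :
    ∑ g : G k, chi (∑ m, g.1 m * u m) * (chi (∑ m, g.2.1 m * v m) * F g.2.2)
      = (if u = 0 then 2 ^ k else 0) * ((if v = 0 then 2 ^ k else 0) * ∑ c, F c) := by
  rw [Fintype.sum_prod_type, ← sum_chi_dot u, sum_mul]
  refine sum_congr rfl fun a _ => ?_
  simp only []
  rw [← mul_sum]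
  congr 1
  rw [Fintype.sum_prod_type, ← sum_chi_dot v, sum_mul]
  refine sum_congr rfl fun b _ => ?_
  simp only []
  rw [← mul_sum]

lemma add_self_V {n : ℕ} (x : V n) : x + x = 0 := by
  funext m
  have : ∀ a : ZMod 2, a + a = 0 := by decide
  exact this _

lemma add_eq_zero_V {n : ℕ} {x y : V n} (h : x + y = 0) : x = y := by
  funext m
  have h1 := congrFun h m
  have : ∀ a b : ZMod 2, a + b = 0 → a = b := by decide
  exact this _ _ h1

lemma sum_c {v : V 3} (hv : v ≠ 0) (e : ZMod 2) :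
    ∑ c : V 3, chi ((c 0 * v 0 + c 1 * v 1 + c 2 * v 2) + e) = 0 := by
  have h := sum_chi_dot v
  rw [if_neg hv] at h
  have : ∀ c : V 3, chi ((c 0 * v 0 + c 1 * v 1 + c 2 * v 2) + e)
      = chi (∑ m, c m * v m) * chi e := by
    intro c
    rw [← chi_add, Fin.sum_univ_three]
  rw [sum_congr rfl fun c _ => this c, ← sum_mul, h, zero_mul]

/-- The exponent as a function of the evaluation point. -/
lemma ex_comm {n : ℕ} (d : Fin 4 → ZMod 2) (a b x y : V n) :
    ex d a b x y = ∑ m, a m * x m + (∑ m, b m * y m + Q d x y) := by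
  unfold ex
  simp only [mul_comm]
  ring

lemma orth_sg {k : ℕ} (i j : J k) :
    ∑ g, sg k i g * sg k j g = if i = j then 8 * 4 ^ k else 0 := by
  split_ifs with hij
  · subst hij
    have : ∀ g, sg k i g * sg k i g = 1 := fun g => chi_mul_self _
    rw [sum_congr rfl fun g _ => this g, sum_const, card_univ, card_G]
    simp
  · have h : ∀ g : G k, sg k i g * sg k j g
        = chi (∑ m, g.1 m * (i.1 + j.1) m) * (chi (∑ m, g.2.1 m * (i.2 + j.2) m)
          * chi (Q (hat g.2.2 1) i.1 i.2 + Q (hat g.2.2 1) j.1 j.2)) := by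
      intro g
      unfold sg
      rw [← chi_add, ← chi_add, ← chi_add, ex_comm, ex_comm]
      congr 1
      simp only [Pi.add_apply, mul_add, sum_add_distrib]
      ring
    rw [sum_congr rfl fun g _ => h g,
      sum_G (i.1 + j.1) (i.2 + j.2) (fun c => chi (Q (hat c 1) i.1 i.2 + Q (hat c 1) j.1 j.2))]
    by_cases h1 : i.1 + j.1 = 0
    · by_cases h2 : i.2 + j.2 = 0
      · exact absurd (Prod.ext (add_eq_zero_V h1) (add_eq_zero_V h2)) hij
      · rw [if_neg h2]; ring
    · rw [if_neg h1]; ring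

lemma orth_tg {k : ℕ} (i j : J (k + 1)) :
    ∑ g, tg k i g * tg k j g = if i = j then 8 * 4 ^ k else 0 := by
  split_ifs with hij
  · subst hij
    have : ∀ g, tg k i g * tg k i g = 1 := fun g => chi_mul_self _
    rw [sum_congr rfl fun g _ => this g, sum_const, card_univ, card_G]
    simp
  · have h : ∀ g : G k, tg k i g * tg k j g
        = chi (∑ m, g.1 m * (Fin.tail i.1 + Fin.tail j.1) m)
          * (chi (∑ m, g.2.1 m * (Fin.tail i.2 + Fin.tail j.2) m)
          * chi (Q (hat g.2.2 0) (Fin.tail i.1) (Fin.tail i.2)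
              + Q (hat g.2.2 0) (Fin.tail j.1) (Fin.tail j.2)
              + (g.2.2 0 * (1 + 1) + g.2.2 1 * (i.1 0 + j.1 0)
                + g.2.2 2 * (i.2 0 + j.2 0)))) := by
      intro g
      unfold tg
      rw [← chi_add, ← chi_add, ← chi_add, ex_comm, ex_comm]
      congr 1
      simp only [Pi.add_apply, mul_add, sum_add_distrib]
      ring
    rw [sum_congr rfl fun g _ => h g,
      sum_G (Fin.tail i.1 + Fin.tail j.1) (Fin.tail i.2 + Fin.tail j.2)
        (fun c => chi (Q (hat c 0) (Fin.tail i.1) (Fin.tail i.2)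
              + Q (hat c 0) (Fin.tail j.1) (Fin.tail j.2)
              + (c 0 * (1 + 1) + c 1 * (i.1 0 + j.1 0) + c 2 * (i.2 0 + j.2 0))))]
    by_cases h1 : Fin.tail i.1 + Fin.tail j.1 = 0
    · by_cases h2 : Fin.tail i.2 + Fin.tail j.2 = 0
      · have e1 := add_eq_zero_V h1
        have e2 := add_eq_zero_V h2
        have hne : (![0, i.1 0 + j.1 0, i.2 0 + j.2 0] : V 3) ≠ 0 := by
          intro h0
          apply hij
          have p1 := congrFun h0 1
          have p2 := congrFun h0 2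
          simp only [Matrix.cons_val_one, Matrix.cons_val_zero, Pi.zero_apply,
            Matrix.cons_val] at p1 p2
          have hz : ∀ a b : ZMod 2, a + b = 0 → a = b := by decide
          refine Prod.ext ?_ ?_
          · rw [← Fin.cons_self_tail i.1, ← Fin.cons_self_tail j.1, e1, hz _ _ p1]
          · rw [← Fin.cons_self_tail i.2, ← Fin.cons_self_tail j.2, e2, hz _ _ p2]
        have hs := sum_c hne 0
        have : ∀ c : V 3, chi (Q (hat c 0) (Fin.tail i.1) (Fin.tail i.2)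
              + Q (hat c 0) (Fin.tail j.1) (Fin.tail j.2)
              + (c 0 * (1 + 1) + c 1 * (i.1 0 + j.1 0) + c 2 * (i.2 0 + j.2 0)))
            = chi ((c 0 * (![0, i.1 0 + j.1 0, i.2 0 + j.2 0] : V 3) 0
              + c 1 * (![0, i.1 0 + j.1 0, i.2 0 + j.2 0] : V 3) 1
              + c 2 * (![0, i.1 0 + j.1 0, i.2 0 + j.2 0] : V 3) 2) + 0) := by
          intro c
          rw [e1, e2]
          congr 1
          have h11 : (1 + 1 : ZMod 2) = 0 := by decide
          have hqq : ∀ a : ZMod 2, a + a = 0 := by decide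
          rw [hqq, h11]
          simp
        rw [sum_congr rfl fun c _ => this c, hs]
        ring
      · rw [if_neg h2]; ring
    · rw [if_neg h1]; ring

lemma orth_sg_tg {k : ℕ} (i : J k) (j : J (k + 1)) :
    ∑ g, sg k i g * tg k j g = 0 := by
  have h : ∀ g : G k, sg k i g * tg k j g
        = chi (∑ m, g.1 m * (i.1 + Fin.tail j.1) m)
          * (chi (∑ m, g.2.1 m * (i.2 + Fin.tail j.2) m)
          * chi (Q (hat g.2.2 1) i.1 i.2
              + Q (hat g.2.2 0) (Fin.tail j.1) (Fin.tail j.2)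
              + (g.2.2 0 * 1 + g.2.2 1 * j.1 0 + g.2.2 2 * j.2 0))) := by
    intro g
    unfold sg tg
    rw [← chi_add, ← chi_add, ← chi_add, ex_comm, ex_comm]
    congr 1
    simp only [Pi.add_apply, mul_add, sum_add_distrib]
    ring
  rw [sum_congr rfl fun g _ => h g,
    sum_G (i.1 + Fin.tail j.1) (i.2 + Fin.tail j.2)
      (fun c => chi (Q (hat c 1) i.1 i.2
              + Q (hat c 0) (Fin.tail j.1) (Fin.tail j.2)
              + (c 0 * 1 + c 1 * j.1 0 + c 2 * j.2 0)))]
  by_cases h1 : i.1 + Fin.tail j.1 = 0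
  · by_cases h2 : i.2 + Fin.tail j.2 = 0
    · have e1 := add_eq_zero_V h1
      have e2 := add_eq_zero_V h2
      have hne : (![1, j.1 0, j.2 0] : V 3) ≠ 0 := by
        intro h0
        have p1 := congrFun h0 0
        simp at p1
      have hs := sum_c hne (Q (hat 0 1) i.1 i.2)
      have : ∀ c : V 3, chi (Q (hat c 1) i.1 i.2
              + Q (hat c 0) (Fin.tail j.1) (Fin.tail j.2)
              + (c 0 * 1 + c 1 * j.1 0 + c 2 * j.2 0))
          = chi ((c 0 * (![1, j.1 0, j.2 0] : V 3) 0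
            + c 1 * (![1, j.1 0, j.2 0] : V 3) 1
            + c 2 * (![1, j.1 0, j.2 0] : V 3) 2) + Q (hat 0 1) i.1 i.2) := by
        intro c
        rw [← e1, ← e2, ← Q_add, hat_add, add_self_V]
        congr 1
        simp [add_comm]
      rw [sum_congr rfl fun c _ => this c, hs]
      ring
    · rw [if_neg h2]; ring
  · rw [if_neg h1]; ring

lemma sum_V_succ {n : ℕ} (F : V (n + 1) → ℤ) :
    ∑ x, F x = ∑ p : ZMod 2, ∑ x : V n, F (Fin.cons p x) := by
  rw [← Fintype.sum_prod_type']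
  exact (Fintype.sum_equiv (Fin.consEquiv (fun _ : Fin (n + 1) => ZMod 2)) _ _
    (fun _ => rfl)).symm

lemma sum_J_succ {k : ℕ} (F : J (k + 1) → ℤ) :
    ∑ j, F j = ∑ p : ZMod 2, ∑ q : ZMod 2, ∑ x : V k, ∑ y : V k,
      F (Fin.cons p x, Fin.cons q y) := by
  rw [Fintype.sum_prod_type, sum_V_succ]
  refine sum_congr rfl fun p _ => ?_
  have : ∀ x : V k, ∑ y : V (k + 1), F (Fin.cons p x, y)
      = ∑ q : ZMod 2, ∑ y : V k, F (Fin.cons p x, Fin.cons q y) := fun x =>
    sum_V_succ (fun y => F (Fin.cons p x, y))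
  rw [sum_congr rfl fun x _ => this x, sum_comm]

lemma sum_ex_le {n : ℕ} {d : Fin 4 → ZMod 2} (hd : d ≠ 0) (a b : V n) :
    |∑ x : V n, ∑ y : V n, chi (ex d a b x y)| ≤ 2 ^ n * 8 := bias hd a b

/-- Property (D): within one level. -/
lemma corr_same {k : ℕ} (g h : G k) :
    |∑ j : J (k + 1), tg k j g * tg k j h - 4 * ∑ j : J k, sg k j g * sg k j h|
      ≤ 64 * 2 ^ k := by
  have hs : ∑ j : J k, sg k j g * sg k j h
      = ∑ x : V k, ∑ y : V k, chi (ex (hat (g.2.2 + h.2.2) 0) (g.1 + h.1) (g.2.1 + h.2.1) x y) := by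
    rw [Fintype.sum_prod_type]
    refine sum_congr rfl fun x _ => sum_congr rfl fun y _ => ?_
    unfold sg
    rw [← chi_add, ex_add, hat_add]
    congr 2
  have ht : ∑ j : J (k + 1), tg k j g * tg k j h
      = (∑ p : ZMod 2, ∑ q : ZMod 2, chi ((g.2.2 + h.2.2) 0 + (g.2.2 + h.2.2) 1 * p
          + (g.2.2 + h.2.2) 2 * q))
        * ∑ x : V k, ∑ y : V k,
          chi (ex (hat (g.2.2 + h.2.2) 0) (g.1 + h.1) (g.2.1 + h.2.1) x y) := by
    rw [sum_J_succ, sum_mul]
    refine sum_congr rfl fun p _ => ?_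
    rw [sum_mul]
    refine sum_congr rfl fun q _ => ?_
    rw [mul_sum]
    refine sum_congr rfl fun x _ => ?_
    rw [mul_sum]
    refine sum_congr rfl fun y _ => ?_
    unfold tg
    simp only [Fin.tail_cons, Fin.cons_zero]
    rw [← chi_add, ← chi_add]
    congr 1
    have e := ex_add (hat g.2.2 0) (hat h.2.2 0) g.1 h.1 g.2.1 h.2.1 x y
    rw [hat_add] at e
    simp only [Pi.add_apply]
    rw [add_zero] at e
    rw [← e]
    ring
  rw [hs, ht]
  set S := ∑ x : V k, ∑ y : V k,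
    chi (ex (hat (g.2.2 + h.2.2) 0) (g.1 + h.1) (g.2.1 + h.2.1) x y) with hS
  set c := g.2.2 + h.2.2 with hc
  by_cases hc0 : c = 0
  · have : (∑ p : ZMod 2, ∑ q : ZMod 2, chi (c 0 + c 1 * p + c 2 * q)) = 4 := by
      rw [hc0]
      simp only [Pi.zero_apply]
      decide
    rw [this]
    simp
  · have hSle : |S| ≤ 2 ^ k * 8 := sum_ex_le (hat_ne_zero hc0 0) _ _
    have hW : ∀ c0 c1 c2 : ZMod 2,
        |(∑ p : ZMod 2, ∑ q : ZMod 2, chi (c0 + c1 * p + c2 * q)) - 4| ≤ 8 := by
      decide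
    calc |(∑ p : ZMod 2, ∑ q : ZMod 2, chi (c 0 + c 1 * p + c 2 * q)) * S - 4 * S|
        = |(∑ p : ZMod 2, ∑ q : ZMod 2, chi (c 0 + c 1 * p + c 2 * q)) - 4| * |S| := by
          rw [← abs_mul]; congr 1; ring
      _ ≤ 8 * (2 ^ k * 8) := by
          have := hW (c 0) (c 1) (c 2)
          gcongr
      _ = 64 * 2 ^ k := by ring

lemma R_cons_zero {n : ℕ} (d : Fin 4 → ZMod 2) (p : ZMod 2) (x : V n) :
    R d (Fin.cons p x : V (n + 1)) 0 = ∑ i : Fin 4, if 0 = (i : ℕ) then d i * p else 0 := by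
  unfold R
  rw [Fin.sum_univ_succ]
  have h1 : ∑ l : Fin n, ∑ i : Fin 4,
      (if ((0 : Fin (n + 1)) : ℕ) = ((l.succ : Fin (n + 1)) : ℕ) + i
        then d i * (Fin.cons p x : V (n + 1)) l.succ else 0) = 0 := by
    refine sum_eq_zero fun l _ => sum_eq_zero fun i _ => ?_
    rw [if_neg]
    simp only [Fin.val_zero, Fin.val_succ]
    omega
  rw [h1, add_zero]
  refine sum_congr rfl fun i _ => ?_
  simp

lemma R_cons_succ {n : ℕ} (d : Fin 4 → ZMod 2) (p : ZMod 2) (x : V n) (m : Fin n) :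
    R d (Fin.cons p x : V (n + 1)) m.succ
      = (∑ i : Fin 4, if (m : ℕ) + 1 = (i : ℕ) then d i * p else 0) + R d x m := by
  unfold R
  rw [Fin.sum_univ_succ]
  refine congrArg₂ (· + ·) ?_ ?_
  · refine sum_congr rfl fun i _ => ?_
    simp
  · refine sum_congr rfl fun l _ => sum_congr rfl fun i _ => ?_
    simp only [Fin.val_succ, Fin.cons_succ]
    by_cases h : (m : ℕ) = l + i
    · rw [if_pos h, if_pos (by omega)]
    · rw [if_neg h, if_neg (by omega)]

lemma Q_cons {n : ℕ} (d : Fin 4 → ZMod 2) (p q : ZMod 2) (x y : V n) :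
    Q d (Fin.cons p x : V (n + 1)) (Fin.cons q y)
      = Q d x y + ∑ m, y m * (∑ i : Fin 4, if (m : ℕ) + 1 = (i : ℕ) then d i * p else 0)
        + q * (∑ i : Fin 4, if 0 = (i : ℕ) then d i * p else 0) := by
  unfold Q
  rw [Fin.sum_univ_succ]
  simp only [Fin.cons_zero, Fin.cons_succ, R_cons_zero, R_cons_succ, mul_add, sum_add_distrib]
  ring

/-- Property (C): between neighbouring levels. -/
lemma corr_next {k : ℕ} (g : G k) (h : G (k + 1)) :
    |∑ j : J (k + 1), tg k j g * sg (k + 1) j h| ≤ 32 * 2 ^ k := by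
  have hterm : ∀ (p q : ZMod 2) (x y : V k),
      tg k (Fin.cons p x, Fin.cons q y) g * sg (k + 1) (Fin.cons p x, Fin.cons q y) h
      = chi (g.2.2 0 + g.2.2 1 * p + g.2.2 2 * q
          + q * (∑ i : Fin 4, if 0 = (i : ℕ) then (hat h.2.2 1) i * p else 0)
          + p * h.1 0 + q * h.2.1 0)
        * chi (ex (hat (g.2.2 + h.2.2) 1) (g.1 + Fin.tail h.1)
          (g.2.1 + Fin.tail h.2.1
            + fun m : Fin k => ∑ i : Fin 4, if (m : ℕ) + 1 = (i : ℕ) then (hat h.2.2 1) i * p else 0)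
          x y) := by
    intro p q x y
    unfold tg sg
    simp only [Fin.tail_cons, Fin.cons_zero]
    rw [← chi_add, ← chi_add]
    congr 1
    have e : ex (hat (g.2.2 + h.2.2) 1) (g.1 + Fin.tail h.1)
          (g.2.1 + Fin.tail h.2.1
            + fun m : Fin k => ∑ i : Fin 4, if (m : ℕ) + 1 = (i : ℕ) then (hat h.2.2 1) i * p else 0)
          x y
        = Q (hat g.2.2 0) x y + Q (hat h.2.2 1) x y
          + (∑ m, x m * g.1 m + ∑ m, x m * Fin.tail h.1 m)
          + (∑ m, y m * g.2.1 m + ∑ m, y m * Fin.tail h.2.1 m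
            + ∑ m, y m * (∑ i : Fin 4, if (m : ℕ) + 1 = (i : ℕ) then (hat h.2.2 1) i * p
              else 0)) := by
      unfold ex
      have h0 := hat_add g.2.2 h.2.2 0 1
      rw [zero_add] at h0
      rw [← h0, Q_add]
      simp only [Pi.add_apply, mul_add, sum_add_distrib]
    rw [e]
    unfold ex
    rw [Q_cons]
    rw [Fin.sum_univ_succ (fun m => (Fin.cons p x : V (k + 1)) m * h.1 m),
      Fin.sum_univ_succ (fun m => (Fin.cons q y : V (k + 1)) m * h.2.1 m)]
    simp only [Fin.cons_zero, Fin.cons_succ, Fin.tail]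
    ring
  rw [sum_J_succ]
  have hpq : ∀ p q : ZMod 2, |∑ x : V k, ∑ y : V k,
      tg k (Fin.cons p x, Fin.cons q y) g * sg (k + 1) (Fin.cons p x, Fin.cons q y) h|
        ≤ 2 ^ k * 8 := by
    intro p q
    simp only [hterm, ← mul_sum]
    rw [abs_mul, abs_chi, one_mul]
    exact sum_ex_le (hat_ne_zero_of_one _) _ _
  calc |∑ p : ZMod 2, ∑ q : ZMod 2, ∑ x : V k, ∑ y : V k,
        tg k (Fin.cons p x, Fin.cons q y) g * sg (k + 1) (Fin.cons p x, Fin.cons q y) h|
      ≤ ∑ p : ZMod 2, ∑ q : ZMod 2, |∑ x : V k, ∑ y : V k,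
        tg k (Fin.cons p x, Fin.cons q y) g * sg (k + 1) (Fin.cons p x, Fin.cons q y) h| := by
        refine (abs_sum_le_sum_abs _ _).trans (sum_le_sum fun p _ => abs_sum_le_sum_abs _ _)
    _ ≤ ∑ p : ZMod 2, ∑ q : ZMod 2, (2:ℤ) ^ k * 8 :=
        sum_le_sum fun p _ => sum_le_sum fun q _ => hpq p q
    _ = 32 * 2 ^ k := by
        simp only [sum_const, card_univ, ZMod.card, nsmul_eq_mul]
        push_cast
        ring

end Pool.Agent.Lib.MP_136c99_an
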