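import Pool.Agent.Lib.MP_136c99_an.Signs

set_option autoImplicit false

/-!
The compact metric space: a box in the coordinates indexed by all levels, with the
snowflake (exponent 7/8) of the sup metric of all evaluations.
-/

namespace Pool.Agent.Lib.MP_136c99_an

open Finset

/-- All coordinates. -/
abbrev Idx := Σ k : ℕ, J k

/-- All evaluation points. -/
abbrev Evs := Σ k : ℕ, G k

/-- Width of a coordinate. -/
noncomputable def wd (i : Idx) : ℝ := (1 / 8 : ℝ) ^ (i.1 + 1)

lemma wd_pos (i : Idx) : 0 < wd i := by unfold wd; positivity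

/-- The evaluation functionals. -/
noncomputable def ev (q : Evs) : (Idx → ℝ) →ₗ[ℝ] ℝ where
  toFun v := ∑ j : J q.1, (sg q.1 j q.2 : ℝ) * v ⟨q.1, j⟩
    + ∑ j : J (q.1 + 1), (tg q.1 j q.2 : ℝ) * v ⟨q.1 + 1, j⟩
  map_add' v w := by
    simp only [Pi.add_apply, mul_add, sum_add_distrib]; ring
  map_smul' c v := by
    simp only [Pi.smul_apply, smul_eq_mul, RingHom.id_apply, mul_add, mul_sum]
    congr 1 <;> exact sum_congr rfl fun j _ => by ring

lemma ev_apply (q : Evs) (v : Idx → ℝ) :
    ev q v = ∑ j : J q.1, (sg q.1 j q.2 : ℝ) * v ⟨q.1, j⟩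
      + ∑ j : J (q.1 + 1), (tg q.1 j q.2 : ℝ) * v ⟨q.1 + 1, j⟩ := rfl

lemma abs_sg (k : ℕ) (j : J k) (g : G k) : |(sg k j g : ℝ)| = 1 := by
  rcases sg_cases k j g with h | h <;> simp [h]

lemma abs_tg (k : ℕ) (j : J (k + 1)) (g : G k) : |(tg k j g : ℝ)| = 1 := by
  rcases tg_cases k j g with h | h <;> simp [h]

lemma abs_ev_le (q : Evs) (v : Idx → ℝ) :
    |ev q v| ≤ ∑ j : J q.1, |v ⟨q.1, j⟩| + ∑ j : J (q.1 + 1), |v ⟨q.1 + 1, j⟩| := by
  rw [ev_apply]
  refine (abs_add_le _ _).trans (add_le_add ?_ ?_)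
  · refine (abs_sum_le_sum_abs _ _).trans (le_of_eq (sum_congr rfl fun j _ => ?_))
    rw [abs_mul, abs_sg, one_mul]
  · refine (abs_sum_le_sum_abs _ _).trans (le_of_eq (sum_congr rfl fun j _ => ?_))
    rw [abs_mul, abs_tg, one_mul]

lemma abs_ev_le_tsum (q : Evs) (v : Idx → ℝ) (hv : Summable fun i => |v i|) :
    |ev q v| ≤ ∑' i, |v i| := by
  classical
  refine (abs_ev_le q v).trans ?_
  have h1 : ∑ j : J q.1, |v ⟨q.1, j⟩| + ∑ j : J (q.1 + 1), |v ⟨q.1 + 1, j⟩|
      = ∑ i ∈ (univ.map ⟨fun j : J q.1 => (⟨q.1, j⟩ : Idx), sigma_mk_injective⟩).disjUnion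
        (univ.map ⟨fun j : J (q.1 + 1) => (⟨q.1 + 1, j⟩ : Idx), sigma_mk_injective⟩)
        (by
          rw [Finset.disjoint_left]
          intro a ha hb
          simp only [mem_map, mem_univ, true_and, Function.Embedding.coeFn_mk] at ha hb
          obtain ⟨j, rfl⟩ := ha
          obtain ⟨j', hj'⟩ := hb
          have := congrArg Sigma.fst hj'
          simp at this), |v i| := by
    rw [sum_disjUnion, sum_map, sum_map]
    rfl
  rw [h1]
  exact hv.sum_le_tsum _ (fun i _ => abs_nonneg _)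

lemma summable_wd : Summable wd := by
  unfold wd
  rw [summable_sigma_of_nonneg (fun i => by positivity)]
  refine ⟨fun k => (hasSum_fintype _).summable, ?_⟩
  have : ∀ k : ℕ, ∑' j : J k, (1 / 8 : ℝ) ^ (k + 1) = (1 / 8) * (1 / 2 : ℝ) ^ k := by
    intro k
    rw [tsum_fintype, sum_const, card_univ, card_J, nsmul_eq_mul]
    push_cast
    rw [pow_succ, ← mul_assoc, ← mul_pow]
    norm_num
    ring
  simp only [this]
  exact (summable_geometric_of_lt_one (by norm_num) (by norm_num)).mul_left _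

lemma tsum_wd : ∑' i, wd i = 1 / 4 := by
  have h := summable_wd
  unfold wd at h ⊢
  rw [h.tsum_sigma' (fun k => (hasSum_fintype _).summable)]
  have : ∀ k : ℕ, ∑' j : J k, (1 / 8 : ℝ) ^ (k + 1) = (1 / 8) * (1 / 2 : ℝ) ^ k := by
    intro k
    rw [tsum_fintype, sum_const, card_univ, card_J, nsmul_eq_mul]
    push_cast
    rw [pow_succ, ← mul_assoc, ← mul_pow]
    norm_num
    ring
  simp only [this]
  rw [tsum_mul_left, tsum_geometric_two]
  norm_num

/-- Points of the box. -/
structure Pt where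
  x : Idx → ℝ
  bd : ∀ i, |x i| ≤ 2 * wd i

@[ext] lemma Pt.ext' {p q : Pt} (h : p.x = q.x) : p = q := by
  cases p; cases q; simp_all

lemma abs_sub_le (p q : Pt) (i : Idx) : |(p.x - q.x) i| ≤ 4 * wd i := by
  have h1 := p.bd i
  have h2 := q.bd i
  rw [Pi.sub_apply]
  have := abs_sub (p.x i) (q.x i)
  linarith

lemma summable_sub (p q : Pt) : Summable fun i => |(p.x - q.x) i| :=
  Summable.of_nonneg_of_le (fun _ => abs_nonneg _) (abs_sub_le p q) (summable_wd.mul_left 4)

lemma tsum_sub_le (p q : Pt) : ∑' i, |(p.x - q.x) i| ≤ 1 := by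
  refine ((summable_sub p q).tsum_le_tsum (abs_sub_le p q) (summable_wd.mul_left 4)).trans ?_
  rw [tsum_mul_left, tsum_wd]
  norm_num

/-- The base metric. -/
noncomputable def rho (p q : Pt) : ℝ := ⨆ e : Evs, |ev e (p.x - q.x)|

lemma rho_bdd (p q : Pt) : BddAbove (Set.range fun e : Evs => |ev e (p.x - q.x)|) :=
  ⟨1, by
    rintro _ ⟨e, rfl⟩
    exact (abs_ev_le_tsum e _ (summable_sub p q)).trans (tsum_sub_le p q)⟩

instance : Nonempty Evs := ⟨⟨0, 0⟩⟩

lemma ev_le_rho (p q : Pt) (e : Evs) : |ev e (p.x - q.x)| ≤ rho p q :=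
  le_ciSup (rho_bdd p q) e

lemma rho_le {p q : Pt} {c : ℝ} (h : ∀ e, |ev e (p.x - q.x)| ≤ c) : rho p q ≤ c :=
  ciSup_le h

lemma rho_nonneg (p q : Pt) : 0 ≤ rho p q :=
  (abs_nonneg _).trans (ev_le_rho p q ⟨0, 0⟩)

lemma rho_le_one (p q : Pt) : rho p q ≤ 1 :=
  rho_le fun e => (abs_ev_le_tsum e _ (summable_sub p q)).trans (tsum_sub_le p q)

lemma rho_le_tsum (p q : Pt) : rho p q ≤ ∑' i, |(p.x - q.x) i| :=
  rho_le fun e => abs_ev_le_tsum e _ (summable_sub p q)

lemma rho_comm (p q : Pt) : rho p q = rho q p := by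
  unfold rho
  congr 1
  funext e
  rw [← neg_sub, map_neg, abs_neg]

lemma rho_triangle (p q r : Pt) : rho p r ≤ rho p q + rho q r := by
  refine rho_le fun e => ?_
  have : p.x - r.x = (p.x - q.x) + (q.x - r.x) := by abel
  rw [this, map_add]
  exact (abs_add_le _ _).trans (add_le_add (ev_le_rho p q e) (ev_le_rho q r e))

/-- Recovering a coordinate from evaluations of its own level. -/
lemma coord_sg (v : Idx → ℝ) (k : ℕ) (j : J k) :
    (8 * 4 ^ k : ℝ) * v ⟨k, j⟩ = ∑ g : G k, (sg k j g : ℝ) * ev ⟨k, g⟩ v := by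
  have h1 : ∀ i : J k, ∑ g : G k, (sg k j g : ℝ) * (sg k i g : ℝ)
      = if j = i then (8 * 4 ^ k : ℝ) else 0 := by
    intro i
    have := orth_sg j i
    exact_mod_cast this
  have h2 : ∀ i : J (k + 1), ∑ g : G k, (sg k j g : ℝ) * (tg k i g : ℝ) = 0 := by
    intro i
    have := orth_sg_tg j i
    exact_mod_cast this
  calc (8 * 4 ^ k : ℝ) * v ⟨k, j⟩
      = ∑ i : J k, (if j = i then (8 * 4 ^ k : ℝ) else 0) * v ⟨k, i⟩
        + ∑ i : J (k + 1), (0 : ℝ) * v ⟨k + 1, i⟩ := by
        simp
    _ = ∑ i : J k, (∑ g : G k, (sg k j g : ℝ) * (sg k i g : ℝ)) * v ⟨k, i⟩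
        + ∑ i : J (k + 1), (∑ g : G k, (sg k j g : ℝ) * (tg k i g : ℝ)) * v ⟨k + 1, i⟩ := by
        congr 1
        · exact sum_congr rfl fun i _ => by rw [h1]
        · exact sum_congr rfl fun i _ => by rw [h2]
    _ = ∑ g : G k, (sg k j g : ℝ) * ev ⟨k, g⟩ v := by
        simp only [ev_apply, mul_add, sum_add_distrib, sum_mul, mul_sum]
        congr 1
        · rw [sum_comm]
          exact sum_congr rfl fun g _ => sum_congr rfl fun i _ => by ring
        · rw [sum_comm]
          exact sum_congr rfl fun g _ => sum_congr rfl fun i _ => by ring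

/-- Recovering a coordinate from evaluations of the previous level. -/
lemma coord_tg (v : Idx → ℝ) (k : ℕ) (j : J (k + 1)) :
    (8 * 4 ^ k : ℝ) * v ⟨k + 1, j⟩ = ∑ g : G k, (tg k j g : ℝ) * ev ⟨k, g⟩ v := by
  have h1 : ∀ i : J (k + 1), ∑ g : G k, (tg k j g : ℝ) * (tg k i g : ℝ)
      = if j = i then (8 * 4 ^ k : ℝ) else 0 := by
    intro i
    have := orth_tg j i
    exact_mod_cast this
  have h2 : ∀ i : J k, ∑ g : G k, (tg k j g : ℝ) * (sg k i g : ℝ) = 0 := by
    intro i
    have := orth_sg_tg i j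
    have h3 : ∑ g : G k, (tg k j g : ℝ) * (sg k i g : ℝ)
        = ((∑ g : G k, sg k i g * tg k j g : ℤ) : ℝ) := by
      push_cast
      exact sum_congr rfl fun g _ => by ring
    rw [h3, this, Int.cast_zero]
  calc (8 * 4 ^ k : ℝ) * v ⟨k + 1, j⟩
      = ∑ i : J k, (0 : ℝ) * v ⟨k, i⟩
        + ∑ i : J (k + 1), (if j = i then (8 * 4 ^ k : ℝ) else 0) * v ⟨k + 1, i⟩ := by
        simp
    _ = ∑ i : J k, (∑ g : G k, (tg k j g : ℝ) * (sg k i g : ℝ)) * v ⟨k, i⟩
        + ∑ i : J (k + 1), (∑ g : G k, (tg k j g : ℝ) * (tg k i g : ℝ)) * v ⟨k + 1, i⟩ := by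
        congr 1
        · exact sum_congr rfl fun i _ => by rw [h2]
        · exact sum_congr rfl fun i _ => by rw [h1]
    _ = ∑ g : G k, (tg k j g : ℝ) * ev ⟨k, g⟩ v := by
        simp only [ev_apply, mul_add, sum_add_distrib, sum_mul, mul_sum]
        congr 1
        · rw [sum_comm]
          exact sum_congr rfl fun g _ => sum_congr rfl fun i _ => by ring
        · rw [sum_comm]
          exact sum_congr rfl fun g _ => sum_congr rfl fun i _ => by ring

lemma abs_coord_le {v : Idx → ℝ} {c : ℝ} (h : ∀ e, |ev e v| ≤ c) (i : Idx) : |v i| ≤ c := by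
  obtain ⟨k, j⟩ := i
  have h1 := coord_sg v k j
  have hpos : (0 : ℝ) < 8 * 4 ^ k := by positivity
  have h2 : |(8 * 4 ^ k : ℝ) * v ⟨k, j⟩| ≤ (8 * 4 ^ k) * c := by
    rw [h1]
    refine (abs_sum_le_sum_abs _ _).trans ?_
    calc ∑ g : G k, |(sg k j g : ℝ) * ev ⟨k, g⟩ v| ≤ ∑ _g : G k, c := by
          refine sum_le_sum fun g _ => ?_
          rw [abs_mul, abs_sg, one_mul]
          exact h _
      _ = (8 * 4 ^ k) * c := by
          rw [sum_const, card_univ, card_G, nsmul_eq_mul]
          push_cast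
          ring
  rw [abs_mul, abs_of_pos hpos] at h2
  exact le_of_mul_le_mul_left h2 hpos

lemma coord_le_rho (p q : Pt) (i : Idx) : |p.x i - q.x i| ≤ rho p q :=
  abs_coord_le (v := p.x - q.x) (fun e => ev_le_rho p q e) i

/-- The snowflake exponent. -/
noncomputable def al : ℝ := 7 / 8

lemma al_pos : 0 < al := by unfold al; norm_num
lemma al_le_one : al ≤ 1 := by unfold al; norm_num

noncomputable instance : MetricSpace Pt where
  dist p q := rho p q ^ al
  dist_self p := by
    have : rho p p = 0 := by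
      apply le_antisymm _ (rho_nonneg p p)
      refine rho_le fun e => ?_
      rw [sub_self, map_zero, abs_zero]
    rw [this, Real.zero_rpow al_pos.ne']
  dist_comm p q := by rw [rho_comm]
  dist_triangle p q r := by
    calc rho p r ^ al ≤ (rho p q + rho q r) ^ al :=
          Real.rpow_le_rpow (rho_nonneg _ _) (rho_triangle p q r) al_pos.le
      _ ≤ rho p q ^ al + rho q r ^ al :=
          Real.rpow_add_le_add_rpow (rho_nonneg _ _) (rho_nonneg _ _) al_pos.le al_le_one
  eq_of_dist_eq_zero {p q} h := by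
    have h0 : rho p q = 0 := by
      rwa [Real.rpow_eq_zero (rho_nonneg p q) al_pos.ne'] at h
    apply Pt.ext'
    funext i
    have := coord_le_rho p q i
    rw [h0] at this
    exact sub_eq_zero.mp (abs_eq_zero.mp (le_antisymm this (abs_nonneg _)))

lemma dist_eq (p q : Pt) : dist p q = rho p q ^ al := rfl

lemma dist_le_rpow {p q : Pt} {c : ℝ} (h : ∀ e, |ev e (p.x - q.x)| ≤ c) :
    dist p q ≤ c ^ al :=
  Real.rpow_le_rpow (rho_nonneg p q) (rho_le h) al_pos.le

lemma rho_le_dist (p q : Pt) : rho p q ≤ dist p q := by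
  rw [dist_eq]
  calc rho p q = rho p q ^ (1 : ℝ) := (Real.rpow_one _).symm
    _ ≤ rho p q ^ al :=
      Real.rpow_le_rpow_of_exponent_ge' (rho_nonneg p q) (rho_le_one p q) al_pos.le al_le_one

lemma ev_le_dist (p q : Pt) (e : Evs) : |ev e p.x - ev e q.x| ≤ dist p q := by
  rw [← map_sub]
  exact (ev_le_rho p q e).trans (rho_le_dist p q)

lemma coord_le_dist (p q : Pt) (i : Idx) :
    |p.x i - q.x i| ≤ (4 * wd i) ^ (1 - al) * dist p q := by
  have h1 := coord_le_rho p q i
  have h2 : |p.x i - q.x i| ≤ 4 * wd i := abs_sub_le p q i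
  rw [dist_eq]
  rcases eq_or_lt_of_le (abs_nonneg (p.x i - q.x i)) with h0 | h0
  · rw [← h0]
    have := wd_pos i
    have := rho_nonneg p q
    positivity
  · calc |p.x i - q.x i| = |p.x i - q.x i| ^ ((1 - al) + al) := by
          rw [sub_add_cancel, Real.rpow_one]
      _ = |p.x i - q.x i| ^ (1 - al) * |p.x i - q.x i| ^ al := Real.rpow_add h0 _ _
      _ ≤ (4 * wd i) ^ (1 - al) * rho p q ^ al := by
          have hal := al_le_one
          have hal2 := al_pos
          have := wd_pos i
          have h1a : 0 ≤ 1 - al := by linarith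
          gcongr

/-- The zero point. -/
def pt0 : Pt := ⟨0, fun i => by
  have := wd_pos i
  simp only [Pi.zero_apply, abs_zero]
  linarith⟩

/-- The parametrising compact product. -/
abbrev Box := ∀ i : Idx, Set.Icc (-(2 * wd i)) (2 * wd i)

def toPt (u : Box) : Pt := ⟨fun i => u i, fun i => abs_le.mpr (u i).2⟩

lemma toPt_surj : Function.Surjective toPt := fun p =>
  ⟨fun i => ⟨p.x i, abs_le.mp (p.bd i)⟩, rfl⟩

lemma continuous_toPt : Continuous toPt := by
  rw [continuous_iff_continuousAt]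
  intro u
  have hc : Continuous fun w : Box => ∑' i, |((toPt w).x - (toPt u).x) i| := by
    refine continuous_tsum (u := fun i => 4 * wd i) ?_ (summable_wd.mul_left 4) ?_
    · intro i
      have : Continuous fun w : Box => ((w i : ℝ)) := continuous_subtype_val.comp
        (continuous_apply i)
      exact (this.sub continuous_const).abs
    · intro i w
      rw [Real.norm_eq_abs, abs_abs]
      exact abs_sub_le _ _ i
  have h0 : Filter.Tendsto (fun w : Box => (∑' i, |((toPt w).x - (toPt u).x) i|) ^ al)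
      (nhds u) (nhds 0) := by
    have h1 := (hc.tendsto u)
    have h2 : ∑' i, |((toPt u).x - (toPt u).x) i| = 0 := by simp
    rw [h2] at h1
    have h3 := h1.rpow_const (p := al) (Or.inr al_pos.le)
    rwa [Real.zero_rpow al_pos.ne'] at h3
  rw [ContinuousAt, tendsto_iff_dist_tendsto_zero]
  refine squeeze_zero (fun _ => dist_nonneg) (fun w => ?_) h0
  exact Real.rpow_le_rpow (rho_nonneg _ _) (rho_le_tsum _ _) al_pos.le

instance : CompactSpace Pt := ⟨by
  have := isCompact_range continuous_toPt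
  rwa [toPt_surj.range_eq] at this⟩

/-- Little Lipschitz functions separate points. -/
lemma separate (x y : Pt) : ∃ f : Pt → ℝ,
    (∀ a b, |f a - f b| ≤ 1 * dist a b) ∧
    (∀ ε : ℝ, 0 < ε → ∃ η : ℝ, 0 < η ∧ ∀ a b, dist a b < η → |f a - f b| ≤ ε * dist a b) ∧
    f x - f y = dist x y := by
  rcases eq_or_ne x y with rfl | hxy
  · refine ⟨fun _ => 0, ?_, ?_, ?_⟩
    · intro a b; simp
    · intro ε hε
      refine ⟨1, one_pos, fun a b _ => ?_⟩
      simp only [sub_self, abs_zero]
      positivity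
    · simp
  · have hD : 0 < rho x y := by
      rcases eq_or_lt_of_le (rho_nonneg x y) with h | h
      · exfalso
        apply hxy
        apply eq_of_dist_eq_zero
        rw [dist_eq, ← h, Real.zero_rpow al_pos.ne']
      · exact h
    set D := rho x y with hDdef
    set W := D ^ al / D with hW
    have hWpos : 0 < W := by positivity
    -- the function
    let f : Pt → ℝ := fun z => W * min (rho z y) D
    have hf0 : ∀ a b, |f a - f b| ≤ W * min (rho a b) D := by
      intro a b
      simp only [f]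
      rw [← mul_sub, abs_mul, abs_of_pos hWpos]
      apply mul_le_mul_of_nonneg_left _ hWpos.le
      have t1 := rho_triangle a b y
      have t2 := rho_triangle b a y
      rw [rho_comm b a] at t2
      have n1 := rho_nonneg a b
      have n2 := rho_nonneg a y
      have n3 := rho_nonneg b y
      rw [abs_le]
      constructor
      · rcases min_cases (rho a y) D with ⟨h1, h2⟩ | ⟨h1, h2⟩ <;>
        rcases min_cases (rho b y) D with ⟨h3, h4⟩ | ⟨h3, h4⟩ <;>
        rcases min_cases (rho a b) D with ⟨h5, h6⟩ | ⟨h5, h6⟩ <;>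
        rw [h1, h3, h5] <;> linarith
      · rcases min_cases (rho a y) D with ⟨h1, h2⟩ | ⟨h1, h2⟩ <;>
        rcases min_cases (rho b y) D with ⟨h3, h4⟩ | ⟨h3, h4⟩ <;>
        rcases min_cases (rho a b) D with ⟨h5, h6⟩ | ⟨h5, h6⟩ <;>
        rw [h1, h3, h5] <;> linarith
    refine ⟨f, ?_, ?_, ?_⟩
    · intro a b
      refine (hf0 a b).trans ?_
      rw [one_mul, dist_eq]
      rcases eq_or_lt_of_le (rho_nonneg a b) with h | h
      · rw [← h, Real.zero_rpow al_pos.ne', min_eq_left hD.le, mul_zero]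
      · rcases le_total (rho a b) D with h1 | h1
        · rw [min_eq_left h1, hW]
          -- D^(al-1) * r ≤ r^al
          have e1 : D ^ al / D = D ^ (al - 1) := by
            rw [Real.rpow_sub hD, Real.rpow_one]
          have e2 : rho a b ^ al = rho a b ^ (al - 1) * rho a b := by
            rw [Real.rpow_sub h, Real.rpow_one, div_mul_cancel₀ _ h.ne']
          rw [e1, e2]
          apply mul_le_mul_of_nonneg_right _ h.le
          exact Real.rpow_le_rpow_of_nonpos h h1 (by linarith [al_le_one])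
        · rw [min_eq_right h1, hW, div_mul_cancel₀ _ hD.ne']
          exact Real.rpow_le_rpow hD.le h1 al_pos.le
    · intro ε hε
      -- rho ≤ eps/W * rho^al when rho small
      refine ⟨((ε / W) ^ (8 : ℝ)) ^ al, by positivity, fun a b hab => ?_⟩
      refine (hf0 a b).trans ?_
      refine (mul_le_mul_of_nonneg_left (min_le_left _ _) hWpos.le).trans ?_
      rw [dist_eq] at hab ⊢
      rcases eq_or_lt_of_le (rho_nonneg a b) with h | h
      · rw [← h, Real.zero_rpow al_pos.ne']; simp
      · have h1 : rho a b ≤ (ε / W) ^ (8 : ℝ) := by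
          by_contra hcon
          push Not at hcon
          exact absurd (Real.rpow_le_rpow (by positivity) hcon.le al_pos.le) (not_le.mpr hab)
        have h2 : rho a b = rho a b ^ (1 / 8 : ℝ) * rho a b ^ al := by
          rw [← Real.rpow_add h]
          have : (1 / 8 : ℝ) + al = 1 := by unfold al; norm_num
          rw [this, Real.rpow_one]
        have h3 : rho a b ^ (1 / 8 : ℝ) ≤ ε / W := by
          calc rho a b ^ (1 / 8 : ℝ) ≤ ((ε / W) ^ (8 : ℝ)) ^ (1 / 8 : ℝ) :=
                Real.rpow_le_rpow h.le h1 (by norm_num)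
            _ = ε / W := by
                rw [← Real.rpow_mul (by positivity)]
                norm_num
        calc W * rho a b = W * (rho a b ^ (1 / 8 : ℝ) * rho a b ^ al) := by rw [← h2]
          _ ≤ W * (ε / W * rho a b ^ al) := by
              have : 0 ≤ rho a b ^ al := by positivity
              gcongr
          _ = ε * rho a b ^ al := by field_simp
    · simp only [f]
      have h1 : rho y y = 0 := by
        apply le_antisymm _ (rho_nonneg y y)
        refine rho_le fun e => ?_
        rw [sub_self, map_zero, abs_zero]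
      rw [← hDdef, min_self, h1, min_eq_left hD.le, mul_zero, sub_zero, hW,
        div_mul_cancel₀ _ hD.ne', dist_eq]

end Pool.Agent.Lib.MP_136c99_an
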