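import Pool.Agent.Lib.MP_136c99_an.Avg

set_option autoImplicit false

/-!
The transport estimate for averaged difference quotients.
-/

namespace Pool.Agent.Lib.MP_136c99_an

open Finset

/-- Clamping to the box. -/
noncomputable def toP (x : Idx → ℝ) : Pt where
  x i := max (-(2 * wd i)) (min (2 * wd i) (x i))
  bd i := by
    have := wd_pos i
    rw [abs_le]
    exact ⟨le_max_left _ _, max_le (by linarith) (min_le_left _ _)⟩

def InBox (x : Idx → ℝ) : Prop := ∀ i, |x i| ≤ 2 * wd i

lemma toP_x {x : Idx → ℝ} {i : Idx} (h : |x i| ≤ 2 * wd i) : (toP x).x i = x i := by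
  obtain ⟨h1, h2⟩ := abs_le.mp h
  change max (-(2 * wd i)) (min (2 * wd i) (x i)) = x i
  rw [min_eq_right h2, max_eq_right h1]

lemma toP_sub {x y : Idx → ℝ} (hx : InBox x) (hy : InBox y) :
    (toP x).x - (toP y).x = x - y := by
  funext i
  rw [Pi.sub_apply, Pi.sub_apply, toP_x (hx i), toP_x (hy i)]

lemma dist_toP_le {x y : Idx → ℝ} (hx : InBox x) (hy : InBox y) {c : ℝ}
    (h : ∀ e, |ev e (x - y)| ≤ c) : dist (toP x) (toP y) ≤ c ^ al := by
  apply dist_le_rpow
  rwa [toP_sub hx hy]

lemma abs_ev_single_le (e : Evs) (i : Idx) (c : ℝ) :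
    |ev e (Pi.single i c)| ≤ |c| := by
  have hz : ∀ j, j ≠ i → |(Pi.single i c : Idx → ℝ) j| = 0 := by
    intro j hj
    rw [Pi.single_eq_of_ne hj, abs_zero]
  have hs : Summable fun j => |(Pi.single i c : Idx → ℝ) j| :=
    summable_of_ne_finset_zero (s := {i}) (fun j hj => hz j (by simpa using hj))
  refine (abs_ev_le_tsum e _ hs).trans (le_of_eq ?_)
  rw [tsum_eq_single i hz, Pi.single_eq_same]

lemma abs_ev_sum_single_le (e : Evs) (S : Finset Idx) (v : Idx → ℝ) :
    |ev e (∑ i ∈ S, Pi.single i (v i))| ≤ ∑ i ∈ S, |v i| := by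
  rw [map_sum]
  exact (abs_sum_le_sum_abs _ _).trans (sum_le_sum fun i _ => abs_ev_single_le e i _)

lemma sum_single_apply (S : Finset Idx) (v : Idx → ℝ) (j : Idx) :
    (∑ i ∈ S, Pi.single i (v i) : Idx → ℝ) j = if j ∈ S then v j else 0 := by
  rw [Finset.sum_apply]
  split_ifs with h
  · rw [Finset.sum_eq_single j]
    · rw [Pi.single_eq_same]
    · intro i _ hij
      rw [Pi.single_eq_of_ne hij.symm]
    · intro h'; exact absurd h h'
  · refine Finset.sum_eq_zero fun i hi => ?_
    rw [Pi.single_eq_of_ne]
    rintro rfl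
    exact h hi

lemma step (n : ℕ) (i : Idx) (hi : enum.symm i < n) (F : (Idx → ℝ) → ℝ)
    (w : Idx → ℝ) (hw : w i = 0) (r : ℤ) (Ω : ℝ)
    (hb1 : ∀ x ∈ Grid, ∀ t : ℤ, |t| ≤ |r| →
      |F (Function.update (x + w) i ((mm i + t) * hh i)) - F (Function.update x i (wd i))| ≤ Ω)
    (hb0 : ∀ x ∈ Grid, ∀ t : ℤ, |t| ≤ |r| →
      |F (Function.update (x + w) i (t * hh i)) - F (Function.update x i 0)| ≤ Ω) :
    |EE n (fun x => F (x + (w + Pi.single i (r * hh i)))) 0 - EE n (fun x => F (x + w)) 0
      - (r / mm i) * EE n (fun x => F (Function.update x i (wd i))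
          - F (Function.update x i 0)) 0| ≤ (|(r : ℝ)| / mm i) * (2 * Ω) := by
  have hm : (0 : ℝ) < mm i := by exact_mod_cast mm_pos i
  set K : (Idx → ℝ) → ℝ := (fun x => F (x + (w + Pi.single i (r * hh i))))
    - (fun x => F (x + w)) - ((r : ℝ) / mm i) • (fun x => F (Function.update x i (wd i))
          - F (Function.update x i 0)) with hK
  have e1 : EE n (fun x => F (x + (w + Pi.single i (r * hh i)))) 0
      - EE n (fun x => F (x + w)) 0
      - (r / mm i) * EE n (fun x => F (Function.update x i (wd i))
          - F (Function.update x i 0)) 0 = EE n (A i K) 0 := by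
    have h1 : EE n (A i K) = EE n K := by
      have := EE_A n (enum.symm i) hi K
      rwa [Equiv.apply_symm_apply] at this
    rw [h1, hK, map_sub, map_sub, map_smul]
    rfl
  rw [e1, ← Real.norm_eq_abs]
  refine EE_bound n ?_ 0 zero_mem_Grid
  intro x hx
  rw [A_apply]
  have hterm : ∀ t : ℕ, K (Function.update x i (t * hh i))
      = (F (Function.update (x + w) i ((((t : ℤ) + r : ℤ) : ℝ) * hh i))
        - F (Function.update (x + w) i (((t : ℤ) : ℝ) * hh i)))
        - ((r : ℝ) / mm i) * (F (Function.update x i (wd i)) - F (Function.update x i 0)) := by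
    intro t
    have u1 : Function.update x i (t * hh i) + (w + Pi.single i (r * hh i))
        = Function.update (x + w) i ((((t : ℤ) + r : ℤ) : ℝ) * hh i) := by
      funext j
      rcases eq_or_ne j i with rfl | hj
      · simp only [Pi.add_apply, Function.update_self, Pi.single_eq_same, hw]
        push_cast
        ring
      · simp only [Pi.add_apply, Function.update_of_ne hj, Pi.single_eq_of_ne hj]
        ring
    have u2 : Function.update x i (t * hh i) + w
        = Function.update (x + w) i (((t : ℤ) : ℝ) * hh i) := by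
      funext j
      rcases eq_or_ne j i with rfl | hj
      · simp only [Pi.add_apply, Function.update_self, hw]
        push_cast
        ring
      · simp only [Pi.add_apply, Function.update_of_ne hj]
    simp only [hK, Pi.sub_apply, Pi.smul_apply, smul_eq_mul, Function.update_idem]
    rw [u1, u2]
  rw [sum_congr rfl fun t _ => hterm t, sum_sub_distrib, sum_const, card_range, nsmul_eq_mul]
  have htel := telescope (fun t : ℤ => F (Function.update (x + w) i ((t : ℝ) * hh i))) (mm i) r
    (c0 := F (Function.update x i 0)) (c1 := F (Function.update x i (wd i))) (Ω := Ω)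
    (fun t ht => by
      have := hb1 x hx t ht
      simpa using this)
    (fun t ht => hb0 x hx t ht)
  rw [norm_smul, norm_inv, Real.norm_of_nonneg hm.le, inv_mul_le_iff₀ hm]
  have e2 : (mm i : ℝ) * ((r : ℝ) / mm i * (F (Function.update x i (wd i))
      - F (Function.update x i 0)))
      = r * (F (Function.update x i (wd i)) - F (Function.update x i 0)) := by
    field_simp
  have e3 : (mm i : ℝ) * (|(r : ℝ)| / mm i * (2 * Ω)) = |(r : ℝ)| * (2 * Ω) := by
    field_simp
  rw [e2, e3, Real.norm_eq_abs]
  exact htel

/-- The averaged difference of `F` in direction `i`. -/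
noncomputable def DD (n : ℕ) (F : (Idx → ℝ) → ℝ) (i : Idx) : ℝ :=
  EE n (fun x => F (Function.update x i (wd i)) - F (Function.update x i 0)) 0

theorem transport (f : Pt → ℝ) (hf : ∀ p q, |f p - f q| ≤ dist p q) (n : ℕ)
    (S : Finset Idx) (r : Idx → ℤ) (hn : ∀ i ∈ S, enum.symm i < n)
    (hr : ∀ i ∈ S, |(r i : ℝ)| * hh i ≤ wd i) (c : ℝ)
    (hc : ∀ e, |∑ i ∈ S, (r i * hh i) * ev e (Pi.single i 1)| ≤ c) :
    |∑ i ∈ S, (r i : ℝ) * hh i * ((wd i)⁻¹ * DD n (fun x => f (toP x)) i)|
      ≤ c ^ al + (∑ i ∈ S, |(r i : ℝ)| / mm i) * (2 * (∑ i ∈ S, |(r i : ℝ)| * hh i) ^ al) := by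
  set F : (Idx → ℝ) → ℝ := fun x => f (toP x) with hF
  set ℓ : ℝ := ∑ i ∈ S, |(r i : ℝ)| * hh i with hℓ
  let w : Finset Idx → (Idx → ℝ) := fun S' => ∑ i ∈ S', Pi.single i ((r i : ℝ) * hh i)
  have hwle : ∀ S' ⊆ S, ∀ j, |w S' j| ≤ wd j := by
    intro S' hS' j
    simp only [w]
    rw [sum_single_apply S' (fun i => (r i : ℝ) * hh i)]
    split_ifs with h
    · rw [abs_mul, abs_of_pos (hh_pos j)]
      exact hr j (hS' h)
    · rw [abs_zero]; exact (wd_pos j).le
  -- the induction
  have main : ∀ S' ⊆ S, |EE n (fun x => F (x + w S')) 0 - EE n F 0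
      - ∑ i ∈ S', ((r i : ℝ) / mm i) * DD n F i|
      ≤ ∑ i ∈ S', (|(r i : ℝ)| / mm i) * (2 * ℓ ^ al) := by
    intro S'
    induction S' using Finset.induction_on with
    | empty =>
      intro _
      simp [w]
    | insert i S' hi ih =>
      intro hsub
      have hS' : S' ⊆ S := fun j hj => hsub (mem_insert_of_mem hj)
      have hiS : i ∈ S := hsub (mem_insert_self _ _)
      have hwi : w S' i = 0 := by
        simp only [w]
        rw [sum_single_apply S' (fun i => (r i : ℝ) * hh i), if_neg hi]
      have hwins : w (insert i S') = w S' + Pi.single i ((r i : ℝ) * hh i) := by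
        simp only [w]
        rw [sum_insert hi, add_comm]
      have hℓ' : ∑ j ∈ S', |(r j : ℝ) * hh j| + |(r i : ℝ)| * hh i ≤ ℓ := by
        have : ∑ j ∈ insert i S', |(r j : ℝ)| * hh j ≤ ℓ :=
          sum_le_sum_of_subset_of_nonneg hsub (fun j _ _ => by
            have := hh_pos j; positivity)
        rw [sum_insert hi] at this
        have e : ∑ j ∈ S', |(r j : ℝ) * hh j| = ∑ j ∈ S', |(r j : ℝ)| * hh j :=
          sum_congr rfl fun j _ => by rw [abs_mul, abs_of_pos (hh_pos j)]
        rw [e]; linarith
      have hev : ∀ (t : ℤ), |t| ≤ |r i| → ∀ e,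
          |ev e (w S' + Pi.single i ((t : ℝ) * hh i))| ≤ ℓ := by
        intro t ht e
        rw [map_add]
        refine (abs_add_le _ _).trans (le_trans (add_le_add (abs_ev_sum_single_le e S' _)
          (abs_ev_single_le e i _)) (le_trans ?_ hℓ'))
        have hti : |(t : ℝ)| ≤ |(r i : ℝ)| := by exact_mod_cast ht
        rw [abs_mul, abs_of_pos (hh_pos i)]
        have := hh_pos i
        gcongr
      have hcmp : ∀ x ∈ Grid, ∀ t : ℤ, |t| ≤ |r i| → ∀ b : ℝ, 0 ≤ b → b ≤ wd i →
          |F (Function.update (x + w S') i (b + t * hh i)) - F (Function.update x i b)|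
            ≤ ℓ ^ al := by
        intro x hx t ht b hb0 hb1
        have hti : |(t : ℝ)| * hh i ≤ wd i := by
          refine le_trans ?_ (hr i hiS)
          have := hh_pos i
          have hti : |(t : ℝ)| ≤ |(r i : ℝ)| := by exact_mod_cast ht
          gcongr
        have hbox1 : InBox (Function.update (x + w S') i (b + t * hh i)) := by
          intro j
          rcases eq_or_ne j i with rfl | hj
          · rw [Function.update_self]
            refine (abs_add_le _ _).trans ?_
            rw [abs_of_nonneg hb0, abs_mul, abs_of_pos (hh_pos j)]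
            linarith
          · rw [Function.update_of_ne hj, Pi.add_apply]
            refine (abs_add_le _ _).trans ?_
            have h1 := hwle S' hS' j
            have h2 := hx j
            rw [abs_of_nonneg h2.1]
            linarith
        have hbox2 : InBox (Function.update x i b) := by
          intro j
          rcases eq_or_ne j i with rfl | hj
          · rw [Function.update_self, abs_of_nonneg hb0]
            have := wd_pos j
            linarith
          · rw [Function.update_of_ne hj]
            have h2 := hx j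
            rw [abs_of_nonneg h2.1]
            have := wd_pos j
            linarith
        refine (hf _ _).trans (dist_toP_le hbox1 hbox2 ?_)
        have : Function.update (x + w S') i (b + t * hh i) - Function.update x i b
            = w S' + Pi.single i ((t : ℝ) * hh i) := by
          funext j
          rcases eq_or_ne j i with rfl | hj
          · simp only [Pi.sub_apply, Pi.add_apply, Function.update_self, Pi.single_eq_same, hwi]
            ring
          · simp only [Pi.sub_apply, Pi.add_apply, Function.update_of_ne hj,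
              Pi.single_eq_of_ne hj]
            ring
        rw [this]
        exact hev t ht
      have hstep := step n i (hn i hiS) F (w S') hwi (r i) (ℓ ^ al)
        (fun x hx t ht => by
          have := hcmp x hx t ht (wd i) (wd_pos i).le le_rfl
          rwa [← mm_mul_hh, ← add_mul, mm_mul_hh] at this)
        (fun x hx t ht => by
          have := hcmp x hx t ht 0 le_rfl (wd_pos i).le
          rwa [zero_add] at this)
      have hDD : EE n (fun x => F (Function.update x i (wd i)) - F (Function.update x i 0)) 0
          = DD n F i := by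
        unfold DD
        rfl
      rw [hDD] at hstep
      rw [sum_insert hi, sum_insert hi, hwins]
      have hih := ih hS'
      have e : EE n (fun x => F (x + (w S' + Pi.single i ((r i : ℝ) * hh i)))) 0 - EE n F 0
          - ((r i : ℝ) / mm i * DD n F i + ∑ j ∈ S', ((r j : ℝ) / mm j) * DD n F j)
          = (EE n (fun x => F (x + (w S' + Pi.single i ((r i : ℝ) * hh i)))) 0
              - EE n (fun x => F (x + w S')) 0 - (r i : ℝ) / mm i * DD n F i)
            + (EE n (fun x => F (x + w S')) 0 - EE n F 0
              - ∑ j ∈ S', ((r j : ℝ) / mm j) * DD n F j) := by ring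
      rw [e]
      exact (abs_add_le _ _).trans (add_le_add hstep hih)
  have h1 := main S subset_rfl
  have h2 : |EE n (fun x => F (x + w S)) 0 - EE n F 0| ≤ c ^ al := by
    have : EE n (fun x => F (x + w S)) 0 - EE n F 0
        = EE n ((fun x => F (x + w S)) - F) 0 := by
      rw [map_sub]; rfl
    rw [this, ← Real.norm_eq_abs]
    refine EE_bound n ?_ 0 zero_mem_Grid
    intro x hx
    rw [Pi.sub_apply, Real.norm_eq_abs]
    refine (hf _ _).trans (dist_toP_le ?_ ?_ ?_)
    · intro j
      rw [Pi.add_apply]
      refine (abs_add_le _ _).trans ?_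
      have h1 := hwle S subset_rfl j
      have h2 := hx j
      rw [abs_of_nonneg h2.1]
      linarith
    · intro j
      have h2 := hx j
      rw [abs_of_nonneg h2.1]
      have := wd_pos j
      linarith
    · intro e
      rw [add_sub_cancel_left]
      have := hc e
      simp only [w]
      rw [map_sum]
      refine le_trans (le_of_eq ?_) this
      congr 1
      refine sum_congr rfl fun i _ => ?_
      have hs : (Pi.single i ((r i : ℝ) * hh i) : Idx → ℝ)
          = ((r i : ℝ) * hh i) • (Pi.single i (1 : ℝ) : Idx → ℝ) := by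
        rw [← Pi.single_smul, smul_eq_mul, mul_one]
      rw [hs, map_smul, smul_eq_mul]
  have h3 : ∑ i ∈ S, (r i : ℝ) * hh i * ((wd i)⁻¹ * DD n F i)
      = ∑ i ∈ S, ((r i : ℝ) / mm i) * DD n F i := by
    refine sum_congr rfl fun i _ => ?_
    rw [← mm_mul_hh]
    have := hh_pos i
    have hm : (0 : ℝ) < mm i := by exact_mod_cast mm_pos i
    field_simp
  rw [h3]
  rw [← sum_mul] at h1
  have : ∑ i ∈ S, ((r i : ℝ) / mm i) * DD n F i
      = (EE n (fun x => F (x + w S)) 0 - EE n F 0)
        - (EE n (fun x => F (x + w S)) 0 - EE n F 0 - ∑ i ∈ S, ((r i : ℝ) / mm i) * DD n F i) := by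
    ring
  rw [this]
  exact (abs_sub _ _).trans (add_le_add h2 h1)

end Pool.Agent.Lib.MP_136c99_an
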