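import Pool.Agent.Lib.MP_136c99_an.Estimate

set_option autoImplicit false

/-!
The averaged difference quotients as elements of the free space, their limits and norms.
-/

namespace Pool.Agent.Lib.MP_136c99_an

open Finset Filter Topology

section
variable {E : Type*} [NormedAddCommGroup E] [NormedSpace ℝ E]

/-- Averaged difference quotient in direction `i`, using the first `n` coordinates. -/
noncomputable def Ln (δ : Pt → E) (n : ℕ) (i : Idx) : E :=
  (wd i)⁻¹ • EE n (fun x => δ (toP (Function.update x i (wd i)))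
    - δ (toP (Function.update x i 0))) 0

lemma map_Ln (δ : Pt → E) (φ : E →L[ℝ] ℝ) (n : ℕ) (i : Idx) :
    φ (Ln δ n i) = (wd i)⁻¹ * DD n (fun x => φ (δ (toP x))) i := by
  unfold Ln DD
  rw [map_smul, smul_eq_mul, map_EE]
  simp only [map_sub]

lemma inBox_of_grid {x : Idx → ℝ} (hx : x ∈ Grid) : InBox x := by
  intro j
  have h2 := hx j
  rw [abs_of_nonneg h2.1]
  have := wd_pos j
  linarith

lemma dist_update_le {x : Idx → ℝ} (hx : x ∈ Grid) (i : Idx) {b c : ℝ} (hb0 : 0 ≤ b)
    (hb : b ≤ wd i) (hc0 : 0 ≤ c) (hc : c ≤ wd i) :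
    dist (toP (Function.update x i b)) (toP (Function.update x i c)) ≤ wd i ^ al := by
  refine dist_toP_le (inBox_of_grid (update_mem_Grid hx i hb0 hb))
    (inBox_of_grid (update_mem_Grid hx i hc0 hc)) fun e => ?_
  have : Function.update x i b - Function.update x i c = Pi.single i (b - c) := by
    funext j
    rcases eq_or_ne j i with rfl | hj
    · simp
    · simp [Function.update_of_ne hj, Pi.single_eq_of_ne hj]
  rw [this]
  refine (abs_ev_single_le e i _).trans ?_
  rw [abs_le]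
  constructor <;> linarith

lemma norm_Ln_le {δ : Pt → E} (hd : ∀ p q, ‖δ p - δ q‖ = dist p q) (n : ℕ) (i : Idx) :
    ‖Ln δ n i‖ ≤ (wd i)⁻¹ * wd i ^ al := by
  have hw := wd_pos i
  unfold Ln
  rw [norm_smul, norm_inv, Real.norm_of_nonneg hw.le]
  apply mul_le_mul_of_nonneg_left _ (by positivity)
  refine EE_bound n ?_ 0 zero_mem_Grid
  intro x hx
  rw [hd]
  exact dist_update_le hx i hw.le le_rfl le_rfl hw.le

lemma A_sub_apply (H : (Idx → ℝ) → E) (j : Idx) (x : Idx → ℝ) : (A j H - H) x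
      = (mm j : ℝ)⁻¹ • ∑ t ∈ range (mm j), (H (Function.update x j (t * hh j)) - H x) := by
  have hm : (0 : ℝ) < mm j := by exact_mod_cast mm_pos j
  rw [Pi.sub_apply, A_apply, sum_sub_distrib, sum_const, card_range, smul_sub,
      ← Nat.cast_smul_eq_nsmul ℝ, smul_smul, inv_mul_cancel₀ hm.ne', one_smul]

lemma dist_Ln_succ {δ : Pt → E} (hd : ∀ p q, ‖δ p - δ q‖ = dist p q) (n : ℕ) (i : Idx) :
    dist (Ln δ n i) (Ln δ (n + 1) i) ≤ (wd i)⁻¹ * (2 * wd (enum n) ^ al) := by
  have hw := wd_pos i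
  rw [dist_comm, dist_eq_norm]
  unfold Ln
  rw [← smul_sub, norm_smul, norm_inv, Real.norm_of_nonneg hw.le]
  apply mul_le_mul_of_nonneg_left _ (by positivity)
  set H : (Idx → ℝ) → E := fun x => δ (toP (Function.update x i (wd i)))
    - δ (toP (Function.update x i 0)) with hH
  set j := enum n with hj
  have e2 : EE (n + 1) H 0 - EE n H 0 = EE n (A j H - H) 0 := by
    rw [EE_succ, map_sub]
    rfl
  rw [e2]
  refine EE_bound n ?_ 0 zero_mem_Grid
  intro x hx
  have hm : (0 : ℝ) < mm j := by exact_mod_cast mm_pos j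
  rw [A_sub_apply, norm_smul, norm_inv, Real.norm_of_nonneg hm.le, inv_mul_le_iff₀ hm]
  refine (norm_sum_le _ _).trans ?_
  have hterm : ∀ t ∈ range (mm j), ‖H (Function.update x j (t * hh j)) - H x‖
      ≤ 2 * wd j ^ al := by
    intro t ht
    have ht0 : (0 : ℝ) ≤ t * hh j := by have := hh_pos j; positivity
    have ht1 := grid_le (mem_range.mp ht)
    have hcmp : ∀ b : ℝ, 0 ≤ b → b ≤ wd i →
        ‖δ (toP (Function.update (Function.update x j (t * hh j)) i b))
          - δ (toP (Function.update x i b))‖ ≤ wd j ^ al := by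
      intro b hb0 hb1
      rw [hd]
      rcases eq_or_ne j i with hji | hji
      · rw [hji, Function.update_idem, dist_self]
        have := wd_pos i
        positivity
      · rw [Function.update_comm hji]
        have h1 : Function.update x i b ∈ Grid := update_mem_Grid hx i hb0 hb1
        have h2 : Function.update x i b
            = Function.update (Function.update x i b) j (x j) := by
          have : x j = (Function.update x i b) j := (Function.update_of_ne hji _ _).symm
          rw [this, Function.update_eq_self]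
        conv_lhs => rw [h2]
        rw [Function.update_idem]
        exact dist_update_le h1 j ht0 ht1 (hx j).1 (hx j).2
    have hw1 := hcmp (wd i) (wd_pos i).le le_rfl
    have hw0 := hcmp 0 le_rfl (wd_pos i).le
    simp only [hH]
    have : ∀ a b c d : E, ‖(a - b) - (c - d)‖ ≤ ‖a - c‖ + ‖b - d‖ := by
      intro a b c d
      have : (a - b) - (c - d) = (a - c) - (b - d) := by abel
      rw [this]
      exact norm_sub_le _ _
    refine (this _ _ _ _).trans ?_
    linarith
  calc ∑ t ∈ range (mm j), ‖H (Function.update x j (t * hh j)) - H x‖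
      ≤ ∑ _t ∈ range (mm j), 2 * wd j ^ al := sum_le_sum hterm
    _ = mm j * (2 * wd j ^ al) := by rw [sum_const, card_range, nsmul_eq_mul]

lemma summable_wd_al : Summable fun i : Idx => wd i ^ al := by
  simp only [wd_al]
  have hq := qq_pos
  rw [summable_sigma_of_nonneg (fun i => by positivity)]
  refine ⟨fun k => (hasSum_fintype _).summable, ?_⟩
  have : ∀ k : ℕ, ∑' _j : J k, qq ^ (21 * (k + 1)) = qq ^ 21 * (4 * qq ^ 21) ^ k := by
    intro k
    rw [tsum_fintype, sum_const, card_univ, card_J, nsmul_eq_mul]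
    push_cast
    rw [mul_pow, ← pow_mul]
    ring
  simp only [this]
  apply Summable.mul_left
  apply summable_geometric_of_lt_one (by positivity)
  have : 4 * qq ^ 21 = qq ^ 5 := by
    have h16 : qq ^ 16 = 1 / 4 := by
      have : qq ^ 16 = (qq ^ 8) ^ 2 := by rw [← pow_mul]
      rw [this, qq_pow_eight]; norm_num
    have : qq ^ 21 = qq ^ 16 * qq ^ 5 := by rw [← pow_add]
    rw [this, h16]; ring
  rw [this]
  exact pow_lt_one₀ hq.le qq_lt_one (by norm_num)

lemma cauchy_Ln {δ : Pt → E} (hd : ∀ p q, ‖δ p - δ q‖ = dist p q) (i : Idx) :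
    CauchySeq fun n => Ln δ n i := by
  refine cauchySeq_of_dist_le_of_summable _ (fun n => dist_Ln_succ hd n i) ?_
  apply Summable.mul_left
  apply Summable.mul_left
  exact (enum.summable_iff (f := fun i : Idx => wd i ^ al)).mpr summable_wd_al

/-- The limit vector. -/
noncomputable def LL (δ : Pt → E) (i : Idx) : E := limUnder atTop fun n => Ln δ n i

/-- The trace vectors. -/
noncomputable def Lphi (δ : Pt → E) (e : Evs) : E :=
  ((4 : ℝ) ^ (e.1 + 1))⁻¹ • ∑ j : J (e.1 + 1), (tg e.1 j e.2 : ℝ) • LL δ ⟨e.1 + 1, j⟩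
    - ((4 : ℝ) ^ e.1)⁻¹ • ∑ j : J e.1, (sg e.1 j e.2 : ℝ) • LL δ ⟨e.1, j⟩

variable [CompleteSpace E]

lemma tendsto_Ln {δ : Pt → E} (hd : ∀ p q, ‖δ p - δ q‖ = dist p q) (i : Idx) :
    Tendsto (fun n => Ln δ n i) atTop (𝓝 (LL δ i)) :=
  (cauchy_Ln hd i).tendsto_limUnder

lemma norm_LL_le {δ : Pt → E} (hd : ∀ p q, ‖δ p - δ q‖ = dist p q) (i : Idx) :
    ‖LL δ i‖ ≤ (wd i)⁻¹ * wd i ^ al :=
  le_of_tendsto (tendsto_Ln hd i).norm (Eventually.of_forall fun n => norm_Ln_le hd n i)

/-- The coordinate functional takes the value one. -/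
lemma coord_LL {δ : Pt → E} (hd : ∀ p q, ‖δ p - δ q‖ = dist p q) (i : Idx)
    (φ : E →L[ℝ] ℝ) (hφ : ∀ p, φ (δ p) = p.x i) : φ (LL δ i) = 1 := by
  have h1 : ∀ n, φ (Ln δ n i) = 1 := by
    intro n
    rw [map_Ln]
    unfold DD
    have hw := wd_pos i
    have : (fun x : Idx → ℝ => φ (δ (toP (Function.update x i (wd i))))
        - φ (δ (toP (Function.update x i 0)))) = fun _ => wd i := by
      funext x
      rw [hφ, hφ, toP_x (by rw [Function.update_self, abs_of_pos hw]; linarith),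
        toP_x (by rw [Function.update_self, abs_zero]; linarith),
        Function.update_self, Function.update_self, sub_zero]
    rw [this, EE_const, inv_mul_cancel₀ hw.ne']
  have h2 := ((φ.continuous.tendsto _).comp (tendsto_Ln hd i))
  have h3 : (φ ∘ fun n => Ln δ n i) = fun _ => (1 : ℝ) := by
    funext n; exact h1 n
  rw [h3] at h2
  exact (tendsto_nhds_unique h2 tendsto_const_nhds)

lemma norm_Lphi_le {δ : Pt → E} (hd : ∀ p q, ‖δ p - δ q‖ = dist p q) (e : Evs) :
    ‖Lphi δ e‖ ≤ 34 * (qq ^ 4)⁻¹ * qq ^ (3 * e.1) := by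
  obtain ⟨k, g⟩ := e
  obtain ⟨φ, hφ1, hφ2⟩ := exists_dual_vector'' ℝ (Lphi δ ⟨k, g⟩)
  have hlim : Tendsto (fun n => ((4 : ℝ) ^ (k + 1))⁻¹ * ∑ j : J (k + 1), (tg k j g : ℝ)
        * φ (Ln δ n ⟨k + 1, j⟩)
      - ((4 : ℝ) ^ k)⁻¹ * ∑ j : J k, (sg k j g : ℝ) * φ (Ln δ n ⟨k, j⟩)) atTop
      (𝓝 (φ (Lphi δ ⟨k, g⟩))) := by
    have e : φ (Lphi δ ⟨k, g⟩) = ((4 : ℝ) ^ (k + 1))⁻¹ * ∑ j : J (k + 1), (tg k j g : ℝ)
        * φ (LL δ ⟨k + 1, j⟩)
      - ((4 : ℝ) ^ k)⁻¹ * ∑ j : J k, (sg k j g : ℝ) * φ (LL δ ⟨k, j⟩) := by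
      unfold Lphi
      simp only [map_sub, map_smul, map_sum, smul_eq_mul]
    rw [e]
    refine Tendsto.sub ?_ ?_
    · refine Tendsto.const_mul _ (tendsto_finsetSum _ fun j _ => Tendsto.const_mul _ ?_)
      exact (φ.continuous.tendsto _).comp (tendsto_Ln hd _)
    · refine Tendsto.const_mul _ (tendsto_finsetSum _ fun j _ => Tendsto.const_mul _ ?_)
      exact (φ.continuous.tendsto _).comp (tendsto_Ln hd _)
  have hφn : φ (Lphi δ ⟨k, g⟩) = ‖Lphi δ ⟨k, g⟩‖ := by simpa using hφ2
  rw [← hφn]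
  refine le_of_tendsto hlim ?_
  obtain ⟨N, hN⟩ : ∃ N, ∀ i ∈ lev2 k, enum.symm i < N :=
    ⟨((lev2 k).sup fun i => enum.symm i) + 1, fun i hi =>
      Nat.lt_succ_of_le (Finset.le_sup (f := fun i => enum.symm i) hi)⟩
  filter_upwards [eventually_ge_atTop N] with n hn
  have hlip : ∀ p q : Pt, |φ (δ p) - φ (δ q)| ≤ dist p q := by
    intro p q
    rw [← map_sub, ← hd, ← Real.norm_eq_abs]
    refine (φ.le_opNorm _).trans ?_
    calc ‖φ‖ * ‖δ p - δ q‖ ≤ 1 * ‖δ p - δ q‖ := by gcongr
      _ = ‖δ p - δ q‖ := one_mul _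
  have := scalar_estimate (fun p => φ (δ p)) hlip n k g
    (fun i hi => (hN i hi).trans_le hn)
  simp only [map_Ln]
  exact (le_abs_self _).trans this

end

end Pool.Agent.Lib.MP_136c99_an
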